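import Mathlib

/-! Combinatorial closed surfaces and empire maps on them. -/

namespace Run7.h951

/-- A finite cell decomposition (map) of a closed connected surface, given by its flags.
`r0`, `r1`, `r2` exchange the vertex, the edge, the face of a flag. -/
structure CellMap where
  Flag : Type
  fin : Finite Flag
  ne : Nonempty Flag
  r0 : Flag → Flag
  r1 : Flag → Flag
  r2 : Flag → Flag
  r0_inv : ∀ x, r0 (r0 x) = x
  r1_inv : ∀ x, r1 (r1 x) = x
  r2_inv : ∀ x, r2 (r2 x) = x
  r0_ne : ∀ x, r0 x ≠ x
  r1_ne : ∀ x, r1 x ≠ x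
  r2_ne : ∀ x, r2 x ≠ x
  comm : ∀ x, r0 (r2 x) = r2 (r0 x)
  r02_ne : ∀ x, r0 (r2 x) ≠ x
  conn : ∀ x y, Relation.EqvGen (fun a b => b = r0 a ∨ b = r1 a ∨ b = r2 a) x y

namespace CellMap

/-- The vertices: flags up to changing edge and face. -/
def Vertex (M : CellMap) : Type := Quot (fun a b : M.Flag => b = M.r1 a ∨ b = M.r2 a)

/-- The edges: flags up to changing vertex and face. -/
def Edge (M : CellMap) : Type := Quot (fun a b : M.Flag => b = M.r0 a ∨ b = M.r2 a)

/-- The faces: flags up to changing vertex and edge. -/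
def Face (M : CellMap) : Type := Quot (fun a b : M.Flag => b = M.r0 a ∨ b = M.r1 a)

/-- The face of a flag. -/
def face (M : CellMap) (x : M.Flag) : M.Face := Quot.mk _ x

/-- The Euler characteristic. -/
noncomputable def euler (M : CellMap) : ℤ :=
  (Nat.card M.Vertex : ℤ) - Nat.card M.Edge + Nat.card M.Face

/-- Orientability: the flags have a 2-colouring that every `r_i` reverses. -/
def Orientable (M : CellMap) : Prop :=
  ∃ c : M.Flag → Bool, ∀ x, c (M.r0 x) = !(c x) ∧ c (M.r1 x) = !(c x) ∧ c (M.r2 x) = !(c x)

end CellMap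

/-- The closed surfaces up to homeomorphism: `S g` is the sphere with `g` handles, `N k` is the
sphere with `k + 1` crosscaps. -/
inductive Surface where
  | S (g : ℕ)
  | N (k : ℕ)

namespace Surface

/-- The Euler characteristic of a surface. -/
def euler : Surface → ℤ
  | S g => 2 - 2 * (g : ℤ)
  | N k => 1 - (k : ℤ)

/-- Whether the surface is orientable. -/
def Orientable : Surface → Prop
  | S _ => True
  | N _ => False

end Surface

/-- `M` is a map on the surface `s`. -/
def CellMap.On (M : CellMap) (s : Surface) : Prop :=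
  (M.Orientable ↔ s.Orientable) ∧ M.euler = s.euler

/-- Heawood's number `H(ε, m)`. -/
noncomputable def H (ε : ℤ) (m : ℕ) : ℤ :=
  ⌊(6 * (m : ℝ) + 1 + Real.sqrt ((6 * (m : ℝ) + 1) ^ 2 - 24 * (ε : ℝ))) / 2⌋

/-- `country` (the faces of `M` are the parts) is an `m`-empire map: at most `m` parts each. -/
def IsEmpire (M : CellMap) {C : Type} (country : M.Face → C) (m : ℕ) : Prop :=
  ∀ c : C, Nat.card {f : M.Face // country f = c} ≤ m

/-- `col` is a proper colouring of the countries: countries on the two sides of an edge, if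
different, have different colours. -/
def IsColouring (M : CellMap) {C : Type} (country : M.Face → C) {k : ℕ} (col : C → Fin k) : Prop :=
  ∀ x : M.Flag, country (M.face x) ≠ country (M.face (M.r2 x)) →
    col (country (M.face x)) ≠ col (country (M.face (M.r2 x)))

/-- `H(ε(s), m)` colours are necessary for `m`-empire maps on `s`. -/
def Necessary (s : Surface) (m : ℕ) : Prop :=
  ∃ (M : CellMap) (C : Type) (country : M.Face → C), M.On s ∧ IsEmpire M country m ∧
    ∀ (k : ℕ) (col : C → Fin k), IsColouring M country col → H s.euler m ≤ k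

end Run7.h951
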