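import Pool.Agent.Run7.h951.Final

/-! Counting the surfaces left out. -/

namespace Run7.h951

theorem bad_bound (s : Surface) (m : ℕ) (hm : 1 ≤ m) (h : ¬ Necessary s m) :
    0 ≤ H s.euler m * (6 * m + 1 - H s.euler m) / 6 - s.euler ∧
    H s.euler m * (6 * m + 1 - H s.euler m) / 6 - s.euler < 15 * m + 314 := by
  have h1 := (H_spec s.euler m hm (euler_le s)).1
  have h2 : ¬ (6 * s.euler + 90 * m + 1884 ≤ H s.euler m * (6 * m + 1 - H s.euler m)) :=
    fun hh => h (main s m hm hh)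
  generalize H s.euler m * (6 * m + 1 - H s.euler m) = X at h1 h2 ⊢
  omega

theorem H_bound (s : Surface) (m X : ℕ) (hm : 1 ≤ m) (hX : - s.euler ≤ X) :
    0 < H s.euler m ∧ H s.euler m < 6 * m + 2 + Nat.sqrt (6 * X) := by
  obtain ⟨h1, h2, h3, h4⟩ := H_spec s.euler m hm (euler_le s)
  refine ⟨h3, ?_⟩
  obtain ⟨n, hn⟩ : ∃ n : ℕ, H s.euler m = n := ⟨(H s.euler m).toNat, by omega⟩
  rw [hn] at h1 ⊢
  by_cases hc : n ≤ 6 * m + 1
  · push_cast; omega
  · obtain ⟨a, rfl⟩ : ∃ a, n = 6 * m + 1 + a := ⟨n - (6 * m + 1), by omega⟩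
    have h5 : a * a ≤ 6 * X := by
      have : ((a * a : ℕ) : ℤ) ≤ (6 * X : ℕ) := by
        push_cast at h1 ⊢
        nlinarith
      exact_mod_cast this
    have h6 : a ≤ Nat.sqrt (6 * X) := Nat.le_sqrt.mpr h5
    push_cast
    omega

theorem count_bad (F : ℕ → Surface) (hF : ∀ a b, (F a).euler = (F b).euler → a = b)
    (m G X : ℕ) (hm : 1 ≤ m) (hX : ∀ g ≤ G, - (F g).euler ≤ X) :
    Nat.card {g : ℕ // g ≤ G ∧ ¬ Necessary (F g) m} ≤
      (15 * m + 314) * (6 * m + 2 + Nat.sqrt (6 * X)) := by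
  have hc : Nat.card (Fin (15 * m + 314) × Fin (6 * m + 2 + Nat.sqrt (6 * X))) =
      (15 * m + 314) * (6 * m + 2 + Nat.sqrt (6 * X)) := by
    simp [Nat.card_prod]
  rw [← hc]
  refine Nat.card_le_card_of_injective (fun g => (⟨(H (F g.1).euler m *
      (6 * m + 1 - H (F g.1).euler m) / 6 - (F g.1).euler).toNat, ?_⟩,
      ⟨(H (F g.1).euler m).toNat, ?_⟩)) ?_
  · have := bad_bound (F g.1) m hm g.2.2
    omega
  · have := H_bound (F g.1) m X hm (hX g.1 g.2.1)
    omega
  · intro a b hab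
    have h1 := congrArg (fun z => z.1.1) hab
    have h2 := congrArg (fun z => z.2.1) hab
    simp only at h1 h2
    have a1 := bad_bound (F a.1) m hm a.2.2
    have b1 := bad_bound (F b.1) m hm b.2.2
    have a2 := H_bound (F a.1) m X hm (hX a.1 a.2.1)
    have b2 := H_bound (F b.1) m X hm (hX b.1 b.2.1)
    have h3 : H (F a.1).euler m = H (F b.1).euler m := by omega
    rw [h3] at h1 a1
    refine Subtype.ext (hF _ _ ?_)
    omega

theorem final (m : ℕ) (hm : 1 ≤ m) :
    (∀ s : Surface, 6 * s.euler + 90 * m + 1884 ≤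
      H s.euler m * (6 * m + 1 - H s.euler m) → Necessary s m) ∧
    (∀ G : ℕ, Nat.card {g : ℕ // g ≤ G ∧ ¬ Necessary (Surface.S g) m} ≤
      (15 * m + 314) * (6 * m + 2 + Nat.sqrt (12 * G))) ∧
    (∀ G : ℕ, Nat.card {k : ℕ // k ≤ G ∧ ¬ Necessary (Surface.N k) m} ≤
      (15 * m + 314) * (6 * m + 2 + Nat.sqrt (6 * G))) := by
  refine ⟨fun s h => main s m hm h, fun G => ?_, fun G => ?_⟩
  · have := count_bad Surface.S (fun a b h => by simp only [Surface.euler] at h; omega)
      m G (2 * G) hm (fun g hg => by simp only [Surface.euler]; omega)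
    rwa [show 6 * (2 * G) = 12 * G by ring] at this
  · exact count_bad Surface.N (fun a b h => by simp only [Surface.euler] at h; omega)
      m G G hm (fun g hg => by simp only [Surface.euler]; omega)

end Run7.h951
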