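import Pool.Agent.Run7.h951.Ladder3

/-! From the near-optimal maps to the colouring statement. -/

namespace Run7.h951

theorem good_all (m n : ℕ) (hm : 1 ≤ m) (hn : 6 * m + 64 ≤ n) :
    ∃ ε : ℤ, Good true ε n m ∧ Even ε ∧ (n : ℤ) * (6 * m + 1 - n) - 90 * m - 1878 ≤ 6 * ε := by
  obtain ⟨s, hs, q, hq⟩ : ∃ s, s ≤ 2 ∧ ∃ q, n = 9 + 5 * s + 3 * q := by
    refine ⟨(3 - n % 3) % 3, by omega, (n - 9 - 5 * ((3 - n % 3) % 3)) / 3, ?_⟩
    have : n % 3 = 0 ∨ n % 3 = 1 ∨ n % 3 = 2 := by omega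
    rcases this with h | h | h <;> rw [h] <;> norm_num <;> omega
  obtain ⟨j, r, hj, hjr, hr⟩ : ∃ j r, j ≤ 3 ∧ j ≤ r ∧ q = 2 * m + (4 * r + j) := by
    refine ⟨(q - 2 * m) % 4, (q - 2 * m) / 4, by omega, by omega, by omega⟩
  have e : n = 6 * (m + 2 * r) + 9 + 5 * s + 3 * j := by omega
  obtain ⟨ε, h1, h2, h3⟩ := Lad.good_ladder s j m r hs hj hm hjr
  rw [← e] at h1 h3
  exact ⟨ε, h1, h2, h3⟩

theorem good_handles (ε : ℤ) (n m k : ℕ) (h : Good true ε n m) :
    Good true (ε - 2 * k) n m := by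
  induction k with
  | zero => simpa using h
  | succ k ih =>
    have := good_handle ih
    have e : ε - 2 * k - 2 = ε - 2 * (k + 1 : ℕ) := by push_cast; ring
    rwa [e] at this

theorem good_crosscaps (ε : ℤ) (n m k : ℕ) (o : Bool) (h : Good o ε n m) :
    Good false (ε - (k + 1 : ℕ)) n m := by
  induction k with
  | zero =>
    have := good_crosscap h
    simpa using this
  | succ k ih =>
    have := good_crosscap ih
    have e : ε - (k + 1 : ℕ) - 1 = ε - (k + 1 + 1 : ℕ) := by push_cast; ring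
    rwa [e] at this

theorem necessary_of_good (s : Surface) (m n : ℕ) (o : Bool) (ho : s.Orientable ↔ o = true)
    (h : Good o s.euler n m) (hH : H s.euler m = n) : Necessary s m := by
  obtain ⟨M, country, h1, h2, h3, h4⟩ := h
  refine ⟨M, Fin n, country, ⟨h1.trans ho.symm, h2⟩, h3, ?_⟩
  intro k col hcol
  rw [hH]
  have hinj : Function.Injective col := by
    intro a b hab
    by_contra hne
    obtain ⟨x, hx, hx'⟩ := h4 a b hne
    have := hcol x (by rw [hx, hx']; exact hne)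
    rw [hx, hx'] at this
    exact this hab
  have := Fintype.card_le_of_injective col hinj
  simp only [Fintype.card_fin] at this
  exact_mod_cast this

theorem H_spec (ε : ℤ) (m : ℕ) (hm : 1 ≤ m) (hε : ε ≤ 2) :
    6 * ε ≤ H ε m * (6 * m + 1 - H ε m) ∧ (H ε m + 1) * (6 * m - H ε m) < 6 * ε ∧
      0 < H ε m ∧ 6 * m < 2 * H ε m + 1 := by
  set n := H ε m with hn
  have hm' : (1 : ℝ) ≤ m := by exact_mod_cast hm
  have hε' : (ε : ℝ) ≤ 2 := by exact_mod_cast hε
  have hD : 0 ≤ (6 * (m : ℝ) + 1) ^ 2 - 24 * (ε : ℝ) := by nlinarith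
  set r := Real.sqrt ((6 * (m : ℝ) + 1) ^ 2 - 24 * (ε : ℝ)) with hr
  have hr0 : 0 ≤ r := Real.sqrt_nonneg _
  have hr2 : r * r = (6 * (m : ℝ) + 1) ^ 2 - 24 * (ε : ℝ) := Real.mul_self_sqrt hD
  have h1 : (n : ℝ) ≤ (6 * (m : ℝ) + 1 + r) / 2 := Int.floor_le _
  have h2 : (6 * (m : ℝ) + 1 + r) / 2 < n + 1 := Int.lt_floor_add_one _
  have hnpos : (0 : ℝ) < n + 1 - 3 * m := by linarith
  have hnposZ : 0 < n + 1 - 3 * m := by exact_mod_cast hnpos
  have hmZ : (1 : ℤ) ≤ m := by exact_mod_cast hm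
  refine ⟨?_, ?_, by omega, ?_⟩
  · have : (6 * (ε : ℝ)) ≤ n * (6 * m + 1 - n) := by
      by_cases hc : (2 * (n : ℝ) - 6 * m - 1) ≤ 0
      · -- then n ≤ 3m + 1/2, and n + 1 > 3m + 1/2 + r/2
        have h3 : -r ≤ 2 * (n : ℝ) - 6 * m - 1 ∨ 2 * (n : ℝ) - 6 * m - 1 < -r := by
          exact le_or_gt _ _
        rcases h3 with h3 | h3
        · nlinarith
        · have h4 : r < 2 := by linarith
          have h5 : (ε : ℝ) ≤ 2 := hε'
          have h6 : r < 1 := by linarith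
          nlinarith
      · push Not at hc
        nlinarith
    exact_mod_cast this
  · have : ((n : ℝ) + 1) * (6 * m - n) < 6 * ε := by nlinarith
    exact_mod_cast this
  · have : (6 * (m : ℝ)) < 2 * n + 1 := by linarith
    exact_mod_cast this

theorem euler_le (s : Surface) : s.euler ≤ 2 := by
  cases s <;> simp [Surface.euler] <;> omega

theorem main (s : Surface) (m : ℕ) (hm : 1 ≤ m)
    (h : 6 * s.euler + 90 * m + 1884 ≤ H s.euler m * (6 * m + 1 - H s.euler m)) :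
    Necessary s m := by
  obtain ⟨h1, h2, h3, h4⟩ := H_spec s.euler m hm (euler_le s)
  have hbig : 48 * (m : ℤ) + 942 < H s.euler m := by nlinarith
  obtain ⟨n, hn⟩ : ∃ n : ℕ, H s.euler m = n := ⟨(H s.euler m).toNat, by omega⟩
  rw [hn] at h h1 h2 hbig
  obtain ⟨ε, e1, e2, e3⟩ := good_all m n hm (by omega)
  cases s with
  | S g =>
    have he : (Surface.S g).euler = 2 - 2 * (g : ℤ) := rfl
    rw [he] at h h1 h2
    obtain ⟨t, ht⟩ := e2
    obtain ⟨k, hk⟩ : ∃ k : ℕ, ε - 2 * k = 2 - 2 * (g : ℤ) :=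
      ⟨(t - (1 - (g : ℤ))).toNat, by omega⟩
    have hg := good_handles ε n m k e1
    rw [hk, ← he] at hg
    exact necessary_of_good (Surface.S g) m n true (by simp [Surface.Orientable]) hg hn
  | N k =>
    have he : (Surface.N k).euler = 1 - (k : ℤ) := rfl
    rw [he] at h h1 h2
    obtain ⟨t, ht⟩ : ∃ t : ℕ, ε - (t + 1 : ℕ) = 1 - (k : ℤ) :=
      ⟨(ε - (1 - (k : ℤ)) - 1).toNat, by omega⟩
    have hg := good_crosscaps ε n m t true e1
    rw [ht, ← he] at hg
    exact necessary_of_good (Surface.N k) m n false (by simp [Surface.Orientable]) hg hn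

end Run7.h951
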