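import Pool.Agent.Run7.h951.Volt2

/-! The ladder current graphs. -/

namespace Run7.h951

open Equiv

namespace Lad

/-- kinds of labels -/
inductive K
  | tL | tR | D | U | bL | bR
deriving DecidableEq, Fintype

/-- the labels in use -/
def valid (s M : ℕ) (x : K × ℕ) : Prop :=
  match x.1 with
  | K.tL => x.2 ≤ s + M
  | K.tR => x.2 ≤ s + M
  | K.D => 1 ≤ x.2 ∧ x.2 ≤ s + M
  | K.U => 1 ≤ x.2 ∧ x.2 ≤ s + M
  | K.bL => s ≤ x.2 ∧ x.2 ≤ s + M
  | K.bR => s ≤ x.2 ∧ x.2 ≤ s + M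

instance (s M : ℕ) : DecidablePred (valid s M) := by
  intro x
  unfold valid
  rcases x with ⟨k, p⟩
  cases k <;> simp only <;> infer_instance

/-- the opposite kind -/
def fl : K → K
  | K.tL => K.tR
  | K.tR => K.tL
  | K.D => K.U
  | K.U => K.D
  | K.bL => K.bR
  | K.bR => K.bL

theorem fl_fl (k : K) : fl (fl k) = k := by cases k <;> rfl

theorem fl_ne (k : K) : fl k ≠ k := by cases k <;> simp [fl]

/-- partner -/
def n0 (x : K × ℕ) : K × ℕ := (fl x.1, x.2)

theorem n0_valid {s M : ℕ} {x : K × ℕ} (h : valid s M x) : valid s M (n0 x) := by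
  rcases x with ⟨k, p⟩
  cases k <;> simpa [n0, fl, valid] using h

/-- next label in the triple; `st` tells for each position whether the top triple is
planar (0), reversed (1) or absent (2) -/
def t0 (s M : ℕ) (st : ℕ → ℕ) (x : K × ℕ) : K × ℕ :=
  match x with
  | (K.tL, p) => if p = s + M ∨ st (p + 1) = 2 then (K.tL, p) else
      if st (p + 1) = 0 then (K.tR, p + 1) else (K.D, p + 1)
  | (K.tR, p) => if p = 0 ∨ st p = 2 then (K.tR, p) else
      if st p = 0 then (K.D, p) else (K.tL, p - 1)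
  | (K.D, p) => if p = 0 ∨ st p = 2 then (K.D, p) else
      if st p = 0 then (K.tL, p - 1) else (K.tR, p)
  | (K.U, p) => if p ≤ s then (K.U, p) else (K.bR, p)
  | (K.bL, p) => if p = s + M then (K.bL, p) else (K.U, p + 1)
  | (K.bR, p) => if p ≤ s then (K.bR, p) else (K.bL, p - 1)

theorem t0_valid {s M : ℕ} {st : ℕ → ℕ} {x : K × ℕ} (h : valid s M x) :
    valid s M (t0 s M st x) := by
  rcases x with ⟨k, p⟩
  cases k <;> simp only [valid] at h <;> simp only [t0] <;> split_ifs <;>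
    simp only [valid] <;> omega

section steps

variable {s M : ℕ} {st : ℕ → ℕ} {p : ℕ}

theorem t_tL_end : t0 s M st (K.tL, s + M) = (K.tL, s + M) := by simp [t0]
theorem t_tL2 (h : st (p + 1) = 2) : t0 s M st (K.tL, p) = (K.tL, p) := by simp [t0, h]
theorem t_tL0 (h1 : p ≠ s + M) (h : st (p + 1) = 0) :
    t0 s M st (K.tL, p) = (K.tR, p + 1) := by simp [t0, h, h1]
theorem t_tL1 (h1 : p ≠ s + M) (h : st (p + 1) ≠ 0) (h2 : st (p + 1) ≠ 2) :
    t0 s M st (K.tL, p) = (K.D, p + 1) := by simp [t0, h, h1, h2]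
theorem t_tR_0 : t0 s M st (K.tR, 0) = (K.tR, 0) := by simp [t0]
theorem t_tR2 (h : st p = 2) : t0 s M st (K.tR, p) = (K.tR, p) := by simp [t0, h]
theorem t_tR0 (h : st (p + 1) = 0) :
    t0 s M st (K.tR, p + 1) = (K.D, p + 1) := by simp [t0, h]
theorem t_tR1 (h : st (p + 1) ≠ 0) (h2 : st (p + 1) ≠ 2) :
    t0 s M st (K.tR, p + 1) = (K.tL, p) := by simp [t0, h, h2]
theorem t_D2 (h : st p = 2) : t0 s M st (K.D, p) = (K.D, p) := by simp [t0, h]
theorem t_D0 (h : st (p + 1) = 0) :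
    t0 s M st (K.D, p + 1) = (K.tL, p) := by simp [t0, h]
theorem t_D1 (h : st (p + 1) ≠ 0) (h2 : st (p + 1) ≠ 2) :
    t0 s M st (K.D, p + 1) = (K.tR, p + 1) := by simp [t0, h, h2]
theorem t_U0 (h : p ≤ s) : t0 s M st (K.U, p) = (K.U, p) := by simp [t0, h]
theorem t_U (h : ¬ p ≤ s) : t0 s M st (K.U, p) = (K.bR, p) := by simp [t0, h]
theorem t_bL_end : t0 s M st (K.bL, s + M) = (K.bL, s + M) := by simp [t0]
theorem t_bL (h : p ≠ s + M) : t0 s M st (K.bL, p) = (K.U, p + 1) := by simp [t0, h]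
theorem t_bR0 (h : p ≤ s) : t0 s M st (K.bR, p) = (K.bR, p) := by simp [t0, h]
theorem t_bR (h : ¬ p + 1 ≤ s) : t0 s M st (K.bR, p + 1) = (K.bL, p) := by
  simp only [t0, h, if_false, Nat.add_sub_cancel]

end steps

theorem t0_3 {s M : ℕ} {st : ℕ → ℕ} {x : K × ℕ} (h : valid s M x) :
    t0 s M st (t0 s M st (t0 s M st x)) = x := by
  rcases x with ⟨k, p⟩
  cases k
  · -- tL
    simp only [valid] at h
    by_cases h1 : p = s + M
    · subst h1; simp only [t_tL_end]
    by_cases h2 : st (p + 1) = 2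
    · simp only [t_tL2 h2]
    by_cases h0 : st (p + 1) = 0
    · rw [t_tL0 h1 h0, t_tR0 h0, t_D0 h0]
    · rw [t_tL1 h1 h0 h2, t_D1 h0 h2, t_tR1 h0 h2]
  · -- tR
    simp only [valid] at h
    rcases p with _ | p
    · simp only [t_tR_0]
    have h1 : p ≠ s + M := by omega
    by_cases h2 : st (p + 1) = 2
    · simp only [t_tR2 h2]
    by_cases h0 : st (p + 1) = 0
    · rw [t_tR0 h0, t_D0 h0, t_tL0 h1 h0]
    · rw [t_tR1 h0 h2, t_tL1 h1 h0 h2, t_D1 h0 h2]
  · -- D
    simp only [valid] at h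
    rcases p with _ | p
    · omega
    have h1 : p ≠ s + M := by omega
    by_cases h2 : st (p + 1) = 2
    · simp only [t_D2 h2]
    by_cases h0 : st (p + 1) = 0
    · rw [t_D0 h0, t_tL0 h1 h0, t_tR0 h0]
    · rw [t_D1 h0 h2, t_tR1 h0 h2, t_tL1 h1 h0 h2]
  · -- U
    simp only [valid] at h
    by_cases h1 : p ≤ s
    · simp only [t_U0 h1]
    · rcases p with _ | p
      · omega
      rw [t_U h1, t_bR h1, t_bL (by omega)]
  · -- bL
    simp only [valid] at h
    by_cases h1 : p = s + M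
    · subst h1; simp only [t_bL_end]
    · rw [t_bL h1, t_U (by omega), t_bR (by omega)]
  · -- bR
    simp only [valid] at h
    by_cases h1 : p ≤ s
    · simp only [t_bR0 h1]
    · rcases p with _ | p
      · omega
      rw [t_bR h1, t_bL (by omega), t_U h1]

/-- heights -/
def hh (s M p : ℕ) : ℤ := 2 * (s + M) + 2 - s +
  (if p % 2 = 0 then ((s + M : ℕ) : ℤ) - (p / 2 : ℕ) else ((p / 2 : ℕ) : ℤ))

/-- the constant of the bottom row -/
def cc (s M : ℕ) : ℤ := (s + M : ℕ) + 1 - ((s + 1) / 2 : ℕ)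

/-- integer values -/
def iv (s M : ℕ) (x : K × ℕ) : ℤ :=
  match x with
  | (K.tL, p) => hh s M p
  | (K.tR, p) => - hh s M p
  | (K.D, p) => hh s M p - hh s M (p - 1)
  | (K.U, p) => - (hh s M p - hh s M (p - 1))
  | (K.bL, p) => cc s M - hh s M p
  | (K.bR, p) => - (cc s M - hh s M p)

theorem iv_n0 (s M : ℕ) (x : K × ℕ) : iv s M (n0 x) = - iv s M x := by
  rcases x with ⟨k, p⟩
  cases k <;> simp [n0, fl, iv]

theorem iv_sum {s M : ℕ} {st : ℕ → ℕ} {x : K × ℕ} (h : valid s M x)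
    (hx : t0 s M st x ≠ x) :
    iv s M x + iv s M (t0 s M st x) + iv s M (t0 s M st (t0 s M st x)) = 0 := by
  rcases x with ⟨k, p⟩
  cases k
  · -- tL
    simp only [valid] at h
    by_cases h1 : p = s + M
    · subst h1; exact absurd t_tL_end hx
    by_cases h2 : st (p + 1) = 2
    · exact absurd (t_tL2 h2) hx
    by_cases h0 : st (p + 1) = 0
    · rw [t_tL0 h1 h0, t_tR0 h0]; simp only [iv, Nat.add_sub_cancel]; ring
    · rw [t_tL1 h1 h0 h2, t_D1 h0 h2]; simp only [iv, Nat.add_sub_cancel]; ring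
  · -- tR
    simp only [valid] at h
    rcases p with _ | p
    · exact absurd t_tR_0 hx
    have h1 : p ≠ s + M := by omega
    by_cases h2 : st (p + 1) = 2
    · exact absurd (t_tR2 h2) hx
    by_cases h0 : st (p + 1) = 0
    · rw [t_tR0 h0, t_D0 h0]; simp only [iv, Nat.add_sub_cancel]; ring
    · rw [t_tR1 h0 h2, t_tL1 h1 h0 h2]; simp only [iv, Nat.add_sub_cancel]; ring
  · -- D
    simp only [valid] at h
    rcases p with _ | p
    · omega
    have h1 : p ≠ s + M := by omega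
    by_cases h2 : st (p + 1) = 2
    · exact absurd (t_D2 h2) hx
    by_cases h0 : st (p + 1) = 0
    · rw [t_D0 h0, t_tL0 h1 h0]; simp only [iv, Nat.add_sub_cancel]; ring
    · rw [t_D1 h0 h2, t_tR1 h0 h2]; simp only [iv, Nat.add_sub_cancel]; ring
  · -- U
    simp only [valid] at h
    by_cases h1 : p ≤ s
    · exact absurd (t_U0 h1) hx
    · rcases p with _ | p
      · omega
      rw [t_U h1, t_bR h1]; simp only [iv, Nat.add_sub_cancel]; ring
  · -- bL
    simp only [valid] at h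
    by_cases h1 : p = s + M
    · subst h1; exact absurd t_bL_end hx
    · rw [t_bL h1, t_U (by omega)]; simp only [iv, Nat.add_sub_cancel]; ring
  · -- bR
    simp only [valid] at h
    by_cases h1 : p ≤ s
    · exact absurd (t_bR0 h1) hx
    · rcases p with _ | p
      · omega
      rw [t_bR h1, t_bL (by omega)]; simp only [iv, Nat.add_sub_cancel]; ring

/-- labels -/
abbrev Lb (s M : ℕ) : Type := {x : K × ℕ // valid s M x}

/-- counting the labels -/
def eqv (s M : ℕ) : Lb s M ≃ (Fin (s + M + 1) ⊕ (Fin (s + M) ⊕ Fin (M + 1))) × Bool where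
  toFun x := match x with
    | ⟨(K.tL, p), h⟩ => (Sum.inl ⟨p, by simp only [valid] at h; omega⟩, true)
    | ⟨(K.tR, p), h⟩ => (Sum.inl ⟨p, by simp only [valid] at h; omega⟩, false)
    | ⟨(K.D, p), h⟩ => (Sum.inr (Sum.inl ⟨p - 1, by simp only [valid] at h; omega⟩), true)
    | ⟨(K.U, p), h⟩ => (Sum.inr (Sum.inl ⟨p - 1, by simp only [valid] at h; omega⟩), false)
    | ⟨(K.bL, p), h⟩ => (Sum.inr (Sum.inr ⟨p - s, by simp only [valid] at h; omega⟩), true)
    | ⟨(K.bR, p), h⟩ => (Sum.inr (Sum.inr ⟨p - s, by simp only [valid] at h; omega⟩), false)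
  invFun y := match y with
    | (Sum.inl p, true) => ⟨(K.tL, p.1), by have := p.2; simp only [valid]; omega⟩
    | (Sum.inl p, false) => ⟨(K.tR, p.1), by have := p.2; simp only [valid]; omega⟩
    | (Sum.inr (Sum.inl p), true) => ⟨(K.D, p.1 + 1), by have := p.2; simp only [valid]; omega⟩
    | (Sum.inr (Sum.inl p), false) => ⟨(K.U, p.1 + 1), by have := p.2; simp only [valid]; omega⟩
    | (Sum.inr (Sum.inr p), true) => ⟨(K.bL, p.1 + s), by have := p.2; simp only [valid]; omega⟩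
    | (Sum.inr (Sum.inr p), false) => ⟨(K.bR, p.1 + s), by have := p.2; simp only [valid]; omega⟩
  left_inv := by
    rintro ⟨⟨k, p⟩, h⟩
    cases k <;> simp only [valid] at h <;> simp only [Subtype.mk.injEq, Prod.mk.injEq, true_and]
      <;> omega
  right_inv := by
    rintro ⟨p | p | p, b⟩ <;> cases b <;> simp

instance (s M : ℕ) : Fintype (Lb s M) := Fintype.ofEquiv _ (eqv s M).symm

theorem card_Lb (s M : ℕ) : Fintype.card (Lb s M) + 1 = 6 * M + 5 + 4 * s := by
  rw [Fintype.card_congr (eqv s M), Fintype.card_prod, Fintype.card_sum, Fintype.card_sum,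
    Fintype.card_fin, Fintype.card_fin, Fintype.card_fin, Fintype.card_bool]
  omega

instance (s M : ℕ) : NeZero (6 * M + 5 + 4 * s) := ⟨by omega⟩

theorem iv_surj1 (s M d : ℕ) (hs : s ≤ 2) (h1 : 1 ≤ d) (h2 : d ≤ 3 * M + 2 + 2 * s) :
    ∃ x, valid s M x ∧ (iv s M x = d ∨ iv s M x = - (d : ℤ)) := by
  by_cases hA : d ≤ s + M
  · refine ⟨(K.D, s + M + 1 - d), ?_, ?_⟩
    · simp only [valid]; omega
    · obtain ⟨q, hq⟩ : ∃ q, s + M + 1 - d = q + 1 := ⟨s + M - d, by omega⟩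
      rw [hq]
      simp only [iv, hh, Nat.add_sub_cancel]
      rcases Nat.even_or_odd' q with ⟨r, hr | hr⟩
      · rw [if_neg (by omega), if_pos (by omega)]
        omega
      · rw [if_pos (by omega), if_neg (by omega)]
        omega
  by_cases hB : 2 * (s + M) + 2 - s ≤ d
  · obtain ⟨z, hz⟩ : ∃ z, d = 2 * (s + M) + 2 - s + z := ⟨d - (2 * (s + M) + 2 - s), by omega⟩
    by_cases hz2 : 2 * z + 1 ≤ s + M
    · refine ⟨(K.tL, 2 * z + 1), by simp only [valid]; omega, Or.inl ?_⟩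
      simp only [iv, hh]
      rw [if_neg (by omega)]
      omega
    · refine ⟨(K.tL, 2 * (s + M - z)), by simp only [valid]; omega, Or.inl ?_⟩
      simp only [iv, hh]
      rw [if_pos (by omega)]
      omega
  · obtain ⟨z, hz⟩ : ∃ z, d + s = s + M + 1 + (s + 1) / 2 + z :=
      ⟨d + s - (s + M + 1 + (s + 1) / 2), by omega⟩
    by_cases hz2 : 2 * z + 1 ≤ s + M
    · refine ⟨(K.bR, 2 * z + 1), by simp only [valid]; omega, Or.inl ?_⟩
      simp only [iv, hh, cc]
      rw [if_neg (by omega)]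
      omega
    · refine ⟨(K.bR, 2 * (s + M - z)), by simp only [valid]; omega, Or.inl ?_⟩
      simp only [iv, hh, cc]
      rw [if_pos (by omega)]
      omega

theorem iv_surj2 (s M : ℕ) (d : ℤ) (hs : s ≤ 2) (h1 : d ≠ 0)
    (h2 : d.natAbs ≤ 3 * M + 2 + 2 * s) : ∃ x, valid s M x ∧ iv s M x = d := by
  obtain ⟨x, hx, hx2⟩ := iv_surj1 s M d.natAbs hs (by omega) h2
  by_cases h : iv s M x = d
  · exact ⟨x, hx, h⟩
  · refine ⟨n0 x, n0_valid hx, ?_⟩
    rw [iv_n0]
    omega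

theorem iv_surj (s M : ℕ) (hs : s ≤ 2) (g : ZMod (6 * M + 5 + 4 * s)) (hg : g ≠ 0) :
    ∃ x : Lb s M, (iv s M x.1 : ZMod (6 * M + 5 + 4 * s)) = g := by
  obtain ⟨x, hx, hx2⟩ := iv_surj2 s M g.valMinAbs hs (by
    intro h
    exact hg ((ZMod.valMinAbs_eq_zero g).mp h)) (by
    have := ZMod.natAbs_valMinAbs_le g
    omega)
  exact ⟨⟨x, hx⟩, by simp only [hx2]; exact ZMod.coe_valMinAbs g⟩

/-- the current graph -/
def cur (s M : ℕ) (st : ℕ → ℕ) (hs : s ≤ 2) : Cur (6 * M + 5 + 4 * s) (Lb s M) where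
  ν := ⟨fun x => ⟨n0 x.1, n0_valid x.2⟩, fun x => ⟨n0 x.1, n0_valid x.2⟩,
    fun x => Subtype.ext (by simp [n0, fl_fl]), fun x => Subtype.ext (by simp [n0, fl_fl])⟩
  τ := ⟨fun x => ⟨t0 s M st x.1, t0_valid x.2⟩,
    fun x => ⟨t0 s M st (t0 s M st x.1), t0_valid (t0_valid x.2)⟩,
    fun x => Subtype.ext (t0_3 x.2), fun x => Subtype.ext (t0_3 x.2)⟩
  val x := (iv s M x.1 : ZMod (6 * M + 5 + 4 * s))
  hν x := Subtype.ext (by simp [n0, fl_fl])
  hν' x h := fl_ne x.1.1 (congrArg (fun y => y.1.1) h)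
  hτ x := Subtype.ext (t0_3 x.2)
  hval x := by
    show (iv s M (n0 x.1) : ZMod (6 * M + 5 + 4 * s)) = _
    rw [iv_n0]; push_cast; rfl
  hsum x hx := by
    have h := iv_sum (st := st) x.2 (fun h => hx (Subtype.ext h))
    have h2 := congrArg (fun z : ℤ => (z : ZMod (6 * M + 5 + 4 * s))) h
    simp only [Int.cast_add, Int.cast_zero] at h2
    exact h2
  hsurj g hg := iv_surj s M hs g hg

end Lad

end Run7.h951
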