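import Pool.Agent.Run7.h951.Ladder

/-! Faces and connectivity of the ladder. -/

namespace Run7.h951

open Equiv

namespace Lad

section conn

variable (s M : ℕ) (st : ℕ → ℕ) (hs : s ≤ 2)

/-- a label joined to a fixed label -/
def Cn (l : Lb s M) : Prop :=
  ∃ v : (cur s M st hs).W,
    Relation.EqvGen (fun a b => b = (cur s M st hs).π a ∨ b = (cur s M st hs).ν a) l v.1

theorem cn_nu (l : Lb s M) (h : Cn s M st hs ((cur s M st hs).ν l)) : Cn s M st hs l := by
  obtain ⟨v, hv⟩ := h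
  exact ⟨v, (Relation.EqvGen.rel l ((cur s M st hs).ν l) (Or.inr rfl)).trans _ _ _ hv⟩

theorem eqv_tau (l : Lb s M) :
    Relation.EqvGen (fun a b => b = (cur s M st hs).π a ∨ b = (cur s M st hs).ν a) l
      ((cur s M st hs).τ l) := by
  refine (Relation.EqvGen.rel l ((cur s M st hs).ν l) (Or.inr rfl)).trans _ _ _ ?_
  refine Relation.EqvGen.rel _ _ (Or.inl ?_)
  show _ = (cur s M st hs).τ ((cur s M st hs).ν ((cur s M st hs).ν l))
  rw [(cur s M st hs).hν]

theorem cn_tau (l : Lb s M) (h : Cn s M st hs ((cur s M st hs).τ l)) : Cn s M st hs l := by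
  obtain ⟨v, hv⟩ := h
  exact ⟨v, (eqv_tau s M st hs l).trans _ _ _ hv⟩

theorem cn_tau' (l : Lb s M) (h : Cn s M st hs l) : Cn s M st hs ((cur s M st hs).τ l) := by
  obtain ⟨v, hv⟩ := h
  exact ⟨v, (eqv_tau s M st hs l).symm.trans _ _ _ hv⟩

theorem cn_fix (l : Lb s M) (h : (cur s M st hs).τ l = l) : Cn s M st hs l :=
  ⟨⟨l, h⟩, Relation.EqvGen.refl _⟩

theorem tau_val (x : K × ℕ) (h : valid s M x) :
    (cur s M st hs).τ ⟨x, h⟩ = ⟨t0 s M st x, t0_valid h⟩ := rfl

theorem nu_val (x : K × ℕ) (h : valid s M x) :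
    (cur s M st hs).ν ⟨x, h⟩ = ⟨n0 x, n0_valid h⟩ := rfl

theorem cn_bR (p : ℕ) : ∀ h : valid s M (K.bR, s + p), Cn s M st hs ⟨(K.bR, s + p), h⟩ := by
  induction p with
  | zero =>
    intro h
    exact cn_fix s M st hs _ (Subtype.ext (t_bR0 (M := M) (st := st) (by omega)))
  | succ p ih =>
    intro h
    have h' : s ≤ s + (p + 1) ∧ s + (p + 1) ≤ s + M := h
    have hb : valid s M (K.bL, s + p) := (⟨by omega, by omega⟩ : s ≤ s + p ∧ s + p ≤ s + M)
    have hb' : valid s M (K.bR, s + p) := hb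
    refine cn_tau s M st hs _ ?_
    have e : (cur s M st hs).τ ⟨(K.bR, s + (p + 1)), h⟩ = ⟨(K.bL, s + p), hb⟩ :=
      Subtype.ext (t_bR (M := M) (st := st) (p := s + p) (by omega))
    rw [e]
    exact cn_nu s M st hs _ (ih hb')

theorem cn_U (p : ℕ) (h : valid s M (K.U, p)) : Cn s M st hs ⟨(K.U, p), h⟩ := by
  have h' : 1 ≤ p ∧ p ≤ s + M := h
  by_cases hp : p ≤ s
  · exact cn_fix s M st hs _ (Subtype.ext (t_U0 (M := M) (st := st) hp))
  · obtain ⟨q, rfl⟩ : ∃ q, p = s + q := ⟨p - s, by omega⟩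
    have hb : valid s M (K.bR, s + q) := (⟨by omega, by omega⟩ : s ≤ s + q ∧ s + q ≤ s + M)
    refine cn_tau s M st hs _ ?_
    have e : (cur s M st hs).τ ⟨(K.U, s + q), h⟩ = ⟨(K.bR, s + q), hb⟩ :=
      Subtype.ext (t_U (M := M) (st := st) (by omega))
    rw [e]
    exact cn_bR s M st hs q hb

theorem cn_D (p : ℕ) (h : valid s M (K.D, p)) : Cn s M st hs ⟨(K.D, p), h⟩ :=
  cn_nu s M st hs _ (cn_U s M st hs p h)

theorem cn_tR (p : ℕ) (h : valid s M (K.tR, p)) : Cn s M st hs ⟨(K.tR, p), h⟩ := by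
  have h' : p ≤ s + M := h
  rcases p with _ | p
  · exact cn_fix s M st hs _ (Subtype.ext (t_tR_0 (s := s) (M := M) (st := st)))
  by_cases h2 : st (p + 1) = 2
  · exact cn_fix s M st hs _ (Subtype.ext (t_tR2 (s := s) (M := M) h2))
  have hD : valid s M (K.D, p + 1) := (⟨by omega, by omega⟩ : 1 ≤ p + 1 ∧ p + 1 ≤ s + M)
  by_cases h0 : st (p + 1) = 0
  · refine cn_tau s M st hs _ ?_
    have e : (cur s M st hs).τ ⟨(K.tR, p + 1), h⟩ = ⟨(K.D, p + 1), hD⟩ :=
      Subtype.ext (t_tR0 (s := s) (M := M) h0)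
    rw [e]
    exact cn_D s M st hs _ hD
  · have e : (cur s M st hs).τ ⟨(K.D, p + 1), hD⟩ = ⟨(K.tR, p + 1), h⟩ :=
      Subtype.ext (t_D1 (s := s) (M := M) h0 h2)
    rw [← e]
    exact cn_tau' s M st hs _ (cn_D s M st hs _ hD)

theorem cn_all (l : Lb s M) : Cn s M st hs l := by
  rcases l with ⟨⟨k, p⟩, h⟩
  cases k
  · exact cn_nu s M st hs _ (cn_tR s M st hs p h)
  · exact cn_tR s M st hs p h
  · exact cn_D s M st hs p h
  · exact cn_U s M st hs p h
  · refine cn_nu s M st hs _ ?_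
    have h' : s ≤ p ∧ p ≤ s + M := h
    obtain ⟨q, rfl⟩ : ∃ q, p = s + q := ⟨p - s, by omega⟩
    exact cn_bR s M st hs q h
  · have h' : s ≤ p ∧ p ≤ s + M := h
    obtain ⟨q, rfl⟩ : ∃ q, p = s + q := ⟨p - s, by omega⟩
    exact cn_bR s M st hs q h

end conn

/-- the kinds of the top triples -/
def st3 (s i j p : ℕ) : ℕ :=
  if p ≤ s then 0 else if (p - s) % 2 = 1 then 0 else if p - s ≤ 2 * j then 2
  else if p - s ≤ 2 * i then 1 else 0

/-- number of the square -/
def sq (s M : ℕ) (x : K × ℕ) : ℕ :=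
  match x with
  | (K.tL, p) => if s + 1 ≤ p ∧ p + 1 ≤ s + M then p else 0
  | (K.D, p) => if s + 1 ≤ p ∧ p + 1 ≤ s + M then p else 0
  | (K.bR, p) => if s + 1 ≤ p ∧ p + 1 ≤ s + M then p else 0
  | (K.U, p) => if s + 2 ≤ p ∧ p ≤ s + M then p - 1 else 0
  | (K.tR, _) => 0
  | (K.bL, _) => 0

theorem sq_tL (s M p : ℕ) : sq s M (K.tL, p) = if s + 1 ≤ p ∧ p + 1 ≤ s + M then p else 0 := rfl
theorem sq_D (s M p : ℕ) : sq s M (K.D, p) = if s + 1 ≤ p ∧ p + 1 ≤ s + M then p else 0 := rfl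
theorem sq_bR (s M p : ℕ) : sq s M (K.bR, p) = if s + 1 ≤ p ∧ p + 1 ≤ s + M then p else 0 := rfl
theorem sq_U (s M p : ℕ) : sq s M (K.U, p) = if s + 2 ≤ p ∧ p ≤ s + M then p - 1 else 0 := rfl
theorem sq_tR (s M p : ℕ) : sq s M (K.tR, p) = 0 := rfl
theorem sq_bL (s M p : ℕ) : sq s M (K.bL, p) = 0 := rfl

theorem st3_odd (s i j : ℕ) {p : ℕ} (h : (p - s) % 2 = 1) : st3 s i j p = 0 := by
  simp only [st3, h, if_true]
  split_ifs <;> rfl

theorem st3_big (s i j : ℕ) {p : ℕ} (hji : j ≤ i) (h : s + 2 * i < p) : st3 s i j p = 0 := by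
  unfold st3
  by_cases h1 : (p - s) % 2 = 1
  · rw [if_neg (by omega), if_pos h1]
  · rw [if_neg (by omega), if_neg h1, if_neg (by omega), if_neg (by omega)]

theorem st3_le (s i j : ℕ) {p : ℕ} (h : p ≤ s) : st3 s i j p = 0 := by
  simp only [st3, h, if_true]

theorem st3_ne (s i j : ℕ) {p : ℕ} (hji : j ≤ i) (h : st3 s i j p ≠ 0) : p ≤ s + 2 * i := by
  by_contra h1
  exact h (st3_big s i j hji (by omega))

theorem sq_inv (s M i j : ℕ) (hji : j ≤ i) (hi : 2 * i + 1 ≤ M) (x : K × ℕ)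
    (h : valid s M x) :
    sq s M (t0 s M (st3 s i j) (n0 x)) - (s + 2 * i) = sq s M x - (s + 2 * i) := by
  have hz : 0 - (s + 2 * i) = 0 := by omega
  have hzz : ∀ (P : Prop) [Decidable P] (p : ℕ), p ≤ s + 2 * i →
      (if P then p else 0) - (s + 2 * i) = 0 := by
    intro P _ p hp
    split_ifs <;> omega
  rcases x with ⟨k, p⟩
  cases k
  · -- tL
    show sq s M (t0 s M (st3 s i j) (K.tR, p)) - (s + 2 * i) = _
    rcases p with _ | p
    · rw [t_tR_0, sq_tR, sq_tL, if_neg (by omega)]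
    by_cases h2 : st3 s i j (p + 1) = 2
    · rw [t_tR2 h2, sq_tR, sq_tL, hzz _ _ (st3_ne s i j hji (by omega)), hz]
    by_cases h0 : st3 s i j (p + 1) = 0
    · rw [t_tR0 h0]; rfl
    · have := st3_ne s i j hji h0
      rw [t_tR1 h0 h2, sq_tL, sq_tL, hzz _ _ this, hzz _ _ (by omega)]
  · -- tR
    show sq s M (t0 s M (st3 s i j) (K.tL, p)) - (s + 2 * i) = _
    rw [sq_tR, hz]
    by_cases h1 : p = s + M
    · subst h1; rw [t_tL_end, sq_tL, if_neg (by omega), hz]
    by_cases h2 : st3 s i j (p + 1) = 2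
    · have := st3_ne s i j hji (show st3 s i j (p + 1) ≠ 0 by omega)
      rw [t_tL2 h2, sq_tL, hzz _ _ (by omega)]
    by_cases h0 : st3 s i j (p + 1) = 0
    · rw [t_tL0 h1 h0, sq_tR, hz]
    · have := st3_ne s i j hji h0
      rw [t_tL1 h1 h0 h2, sq_D, hzz _ _ (by omega)]
  · -- D
    show sq s M (t0 s M (st3 s i j) (K.U, p)) - (s + 2 * i) = _
    by_cases h1 : p ≤ s
    · rw [t_U0 h1, sq_U, sq_D, if_neg (by omega), if_neg (by omega)]
    · rw [t_U h1]; rfl
  · -- U
    show sq s M (t0 s M (st3 s i j) (K.D, p)) - (s + 2 * i) = _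
    have h' : 1 ≤ p ∧ p ≤ s + M := h
    obtain ⟨p, rfl⟩ : ∃ q, p = q + 1 := ⟨p - 1, by omega⟩
    by_cases h2 : st3 s i j (p + 1) = 2
    · have := st3_ne s i j hji (show st3 s i j (p + 1) ≠ 0 by omega)
      rw [t_D2 h2, sq_D, sq_U, hzz _ _ (by omega), hzz _ _ (by omega)]
    by_cases h0 : st3 s i j (p + 1) = 0
    · rw [t_D0 h0, sq_tL, sq_U, Nat.add_sub_cancel]
      by_cases h3 : s + 1 ≤ p
      · rw [if_pos (by omega), if_pos (by omega)]
      · rw [if_neg (by omega), if_neg (by omega)]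
    · have := st3_ne s i j hji h0
      rw [t_D1 h0 h2, sq_tR, sq_U, hzz _ _ (by omega), hz]
  · -- bL
    show sq s M (t0 s M (st3 s i j) (K.bR, p)) - (s + 2 * i) = _
    rw [sq_bL, hz]
    have h' : s ≤ p ∧ p ≤ s + M := h
    by_cases h1 : p ≤ s
    · rw [t_bR0 h1, sq_bR, if_neg (by omega), hz]
    · obtain ⟨p, rfl⟩ : ∃ q, p = q + 1 := ⟨p - 1, by omega⟩
      rw [t_bR h1, sq_bL, hz]
  · -- bR
    show sq s M (t0 s M (st3 s i j) (K.bL, p)) - (s + 2 * i) = _
    have h' : s ≤ p ∧ p ≤ s + M := h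
    by_cases h1 : p = s + M
    · subst h1; rw [t_bL_end, sq_bL, sq_bR, if_neg (by omega)]
    · rw [t_bL h1, sq_U, sq_bR, Nat.add_sub_cancel]
      by_cases h3 : s + 1 ≤ p
      · rw [if_pos (by omega), if_pos (by omega)]
      · rw [if_neg (by omega), if_neg (by omega)]

section faces

variable (s M i j : ℕ) (hs : s ≤ 2) (hji : j ≤ i) (hi : 2 * i + 1 ≤ M)

/-- class of a raw label -/
noncomputable def q (x : K × ℕ) : Quot (fun a b => b = (cur s M (st3 s i j) hs).π a) :=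
  if h : valid s M x then cl (cur s M (st3 s i j) hs).π ⟨x, h⟩
  else cl (cur s M (st3 s i j) hs).π ⟨(K.tR, 0), Nat.zero_le _⟩

theorem q_step {x : K × ℕ} (h : valid s M x) :
    q s M i j hs (t0 s M (st3 s i j) (n0 x)) = q s M i j hs x := by
  have h2 : valid s M (t0 s M (st3 s i j) (n0 x)) := t0_valid (n0_valid h)
  unfold q
  rw [dif_pos h2, dif_pos h]
  exact cl_apply (cur s M (st3 s i j) hs).π ⟨x, h⟩

theorem q_tL {p : ℕ} (h : p ≤ s + M) :
    q s M i j hs (t0 s M (st3 s i j) (K.tR, p)) = q s M i j hs (K.tL, p) :=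
  q_step s M i j hs (x := (K.tL, p)) h

theorem q_tR {p : ℕ} (h : p ≤ s + M) :
    q s M i j hs (t0 s M (st3 s i j) (K.tL, p)) = q s M i j hs (K.tR, p) :=
  q_step s M i j hs (x := (K.tR, p)) h

theorem q_D {p : ℕ} (h1 : 1 ≤ p) (h : p ≤ s + M) :
    q s M i j hs (t0 s M (st3 s i j) (K.U, p)) = q s M i j hs (K.D, p) :=
  q_step s M i j hs (x := (K.D, p)) ⟨h1, h⟩

theorem q_U {p : ℕ} (h1 : 1 ≤ p) (h : p ≤ s + M) :
    q s M i j hs (t0 s M (st3 s i j) (K.D, p)) = q s M i j hs (K.U, p) :=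
  q_step s M i j hs (x := (K.U, p)) ⟨h1, h⟩

theorem q_bL {p : ℕ} (h1 : s ≤ p) (h : p ≤ s + M) :
    q s M i j hs (t0 s M (st3 s i j) (K.bR, p)) = q s M i j hs (K.bL, p) :=
  q_step s M i j hs (x := (K.bL, p)) ⟨h1, h⟩

theorem q_bR {p : ℕ} (h1 : s ≤ p) (h : p ≤ s + M) :
    q s M i j hs (t0 s M (st3 s i j) (K.bL, p)) = q s M i j hs (K.bR, p) :=
  q_step s M i j hs (x := (K.bR, p)) ⟨h1, h⟩

/-- planar positions -/
theorem pl_tR {p : ℕ} (h : p + 1 ≤ s + M) (h0 : st3 s i j (p + 1) = 0) :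
    q s M i j hs (K.tR, p + 1) = q s M i j hs (K.tR, p) := by
  rw [← q_tR s M i j hs (show p ≤ s + M by omega), t_tL0 (by omega) h0]

theorem pl_tL {p : ℕ} (h : p + 1 ≤ s + M) (h0 : st3 s i j (p + 1) = 0) :
    q s M i j hs (K.tL, p + 1) = q s M i j hs (K.D, p + 1) := by
  rw [← q_tL s M i j hs h, t_tR0 h0]

theorem pl_U {p : ℕ} (h : p + 1 ≤ s + M) (h0 : st3 s i j (p + 1) = 0) :
    q s M i j hs (K.U, p + 1) = q s M i j hs (K.tL, p) := by
  rw [← q_U s M i j hs (by omega) h, t_D0 h0]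

theorem D_bR {p : ℕ} (h1 : s + 1 ≤ p) (h : p ≤ s + M) :
    q s M i j hs (K.D, p) = q s M i j hs (K.bR, p) := by
  rw [← q_D s M i j hs (by omega) h, t_U (by omega)]

theorem D_U {p : ℕ} (h1 : 1 ≤ p) (h2 : p ≤ s) (h : p ≤ s + M) :
    q s M i j hs (K.D, p) = q s M i j hs (K.U, p) := by
  rw [← q_D s M i j hs (by omega) h, t_U0 h2]

theorem bR_U {p : ℕ} (h1 : s ≤ p) (h : p + 1 ≤ s + M) :
    q s M i j hs (K.bR, p) = q s M i j hs (K.U, p + 1) := by
  rw [← q_bR s M i j hs (by omega) (show p ≤ s + M by omega), t_bL (by omega)]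

theorem bL_bL {p : ℕ} (h1 : s ≤ p) (h : p + 1 ≤ s + M) :
    q s M i j hs (K.bL, p + 1) = q s M i j hs (K.bL, p) := by
  rw [← q_bL s M i j hs (by omega) h, t_bR (by omega)]

/-- the outer class -/
noncomputable abbrev Oc : Quot (fun a b => b = (cur s M (st3 s i j) hs).π a) :=
  q s M i j hs (K.tR, 0)

theorem left_part (p : ℕ) (hp : p ≤ s) :
    q s M i j hs (K.tR, p) = Oc s M i j hs ∧ q s M i j hs (K.tL, p) = Oc s M i j hs := by
  induction p with
  | zero =>
    refine ⟨rfl, ?_⟩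
    rw [← q_tL s M i j hs (show 0 ≤ s + M by omega), t_tR_0]
  | succ p ih =>
    obtain ⟨h1, h2⟩ := ih (by omega)
    have h0 : st3 s i j (p + 1) = 0 := by simp [st3, hp]
    refine ⟨by rw [pl_tR s M i j hs (by omega) h0, h1], ?_⟩
    rw [pl_tL s M i j hs (by omega) h0, D_U s M i j hs (by omega) hp (by omega),
      pl_U s M i j hs (by omega) h0, h2]

include hi in
theorem at_s : q s M i j hs (K.U, s + 1) = Oc s M i j hs ∧
    q s M i j hs (K.bR, s) = Oc s M i j hs ∧ q s M i j hs (K.bL, s) = Oc s M i j hs := by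
  have h0 : st3 s i j (s + 1) = 0 := st3_odd s i j (by omega)
  have h1 : q s M i j hs (K.U, s + 1) = Oc s M i j hs := by
    rw [pl_U s M i j hs (by omega) h0]; exact (left_part s M i j hs s le_rfl).2
  have h2 : q s M i j hs (K.bR, s) = Oc s M i j hs := by
    rw [bR_U s M i j hs le_rfl (by omega)]; exact h1
  refine ⟨h1, h2, ?_⟩
  rw [← q_bL s M i j hs le_rfl (by omega), t_bR0 le_rfl]; exact h2

/-- everything in position `p` is outer -/
def Aq (p : ℕ) : Prop :=
  q s M i j hs (K.tR, p) = Oc s M i j hs ∧ q s M i j hs (K.tL, p) = Oc s M i j hs ∧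
    q s M i j hs (K.bR, p) = Oc s M i j hs ∧ q s M i j hs (K.U, p + 1) = Oc s M i j hs

include hi in
theorem pair_step (r : ℕ) (hr : r + 1 ≤ i) (h : Aq s M i j hs (s + 2 * r)) :
    Aq s M i j hs (s + 2 * r + 1) ∧ Aq s M i j hs (s + 2 * r + 2) := by
  obtain ⟨a1, a2, a3, a4⟩ := h
  set p := s + 2 * r with hp
  have o1 : st3 s i j (p + 1) = 0 := st3_odd s i j (by omega)
  have o3 : st3 s i j (p + 2 + 1) = 0 := st3_odd s i j (by omega)
  have e1 : q s M i j hs (K.tR, p + 1) = Oc s M i j hs := by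
    rw [pl_tR s M i j hs (by omega) o1, a1]
  have e2 : q s M i j hs (K.tL, p + 1) = q s M i j hs (K.D, p + 1) :=
    pl_tL s M i j hs (by omega) o1
  have e3 : q s M i j hs (K.D, p + 1) = q s M i j hs (K.bR, p + 1) :=
    D_bR s M i j hs (by omega) (by omega)
  have e4 : q s M i j hs (K.bR, p + 1) = q s M i j hs (K.U, p + 1 + 1) :=
    bR_U s M i j hs (by omega) (by omega)
  have e5 : q s M i j hs (K.U, p + 2 + 1) = q s M i j hs (K.tL, p + 2) :=
    pl_U s M i j hs (by omega) o3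
  have e6 : q s M i j hs (K.bR, p + 2) = q s M i j hs (K.U, p + 2 + 1) :=
    bR_U s M i j hs (by omega) (by omega)
  have e7 : q s M i j hs (K.D, p + 2) = q s M i j hs (K.bR, p + 2) :=
    D_bR s M i j hs (by omega) (by omega)
  have n0' : st3 s i j (p + 1 + 1) ≠ 0 := by
    simp only [st3]; split_ifs <;> omega
  by_cases h2 : st3 s i j (p + 1 + 1) = 2
  · have f1 : q s M i j hs (K.tL, p + 1) = q s M i j hs (K.tR, p + 1) := by
      rw [← q_tR s M i j hs (show p + 1 ≤ s + M by omega), t_tL2 h2]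
    have f2 : q s M i j hs (K.tR, p + 2) = q s M i j hs (K.tL, p + 2) := by
      rw [← q_tL s M i j hs (show p + 2 ≤ s + M by omega), t_tR2 h2]
    have f3 : q s M i j hs (K.D, p + 2) = q s M i j hs (K.U, p + 2) := by
      rw [← q_U s M i j hs (by omega) (show p + 2 ≤ s + M by omega), t_D2 h2]
    have g1 : q s M i j hs (K.tL, p + 1) = Oc s M i j hs := by rw [f1, e1]
    have g2 : q s M i j hs (K.U, p + 1 + 1) = Oc s M i j hs := by rw [← e4, ← e3, ← e2, g1]
    have g3 : q s M i j hs (K.bR, p + 2) = Oc s M i j hs := by rw [← e7, f3]; exact g2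
    have g4 : q s M i j hs (K.U, p + 2 + 1) = Oc s M i j hs := by rw [← e6, g3]
    have g5 : q s M i j hs (K.tL, p + 2) = Oc s M i j hs := by rw [← e5, g4]
    exact ⟨⟨e1, g1, by rw [e4, g2], g2⟩, ⟨by rw [f2, g5], g5, g3, g4⟩⟩
  · have f1 : q s M i j hs (K.tR, p + 1) = q s M i j hs (K.D, p + 1 + 1) := by
      rw [← q_tR s M i j hs (show p + 1 ≤ s + M by omega), t_tL1 (by omega) n0' h2]
    have f2 : q s M i j hs (K.tL, p + 2) = q s M i j hs (K.tL, p + 1) := by
      rw [← q_tL s M i j hs (show p + 2 ≤ s + M by omega), t_tR1 n0' h2]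
    have f3 : q s M i j hs (K.U, p + 2) = q s M i j hs (K.tR, p + 2) := by
      rw [← q_U s M i j hs (by omega) (show p + 2 ≤ s + M by omega), t_D1 n0' h2]
    have g1 : q s M i j hs (K.D, p + 1 + 1) = Oc s M i j hs := by rw [← f1, e1]
    have g2 : q s M i j hs (K.bR, p + 2) = Oc s M i j hs := by rw [← e7]; exact g1
    have g3 : q s M i j hs (K.U, p + 2 + 1) = Oc s M i j hs := by rw [← e6, g2]
    have g4 : q s M i j hs (K.tL, p + 2) = Oc s M i j hs := by rw [← e5, g3]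
    have g5 : q s M i j hs (K.tL, p + 1) = Oc s M i j hs := by rw [← f2, g4]
    have g6 : q s M i j hs (K.U, p + 1 + 1) = Oc s M i j hs := by rw [← e4, ← e3, ← e2, g5]
    exact ⟨⟨e1, g5, by rw [e4, g6], g6⟩, ⟨by rw [← f3]; exact g6, g4, g2, g3⟩⟩

include hi in
theorem Aq_all (r : ℕ) (hr : r ≤ i) : ∀ p, s ≤ p → p ≤ s + 2 * r → Aq s M i j hs p := by
  induction r with
  | zero =>
    intro p h1 h2
    have : p = s := by omega
    subst this
    have h3 := left_part p M i j hs p le_rfl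
    have h4 := at_s p M i j hs hi
    exact ⟨h3.1, h3.2, h4.2.1, h4.1⟩
  | succ r ih =>
    intro p h1 h2
    by_cases h3 : p ≤ s + 2 * r
    · exact ih (by omega) p h1 h3
    · have h4 := pair_step s M i j hs hi r hr (ih (by omega) _ (by omega) le_rfl)
      have h5 : p = s + 2 * r + 1 ∨ p = s + 2 * r + 2 := by omega
      rcases h5 with rfl | rfl
      · exact h4.1
      · exact h4.2

include hi hji in
theorem tR_outer (p : ℕ) (hp : p ≤ s + M) : q s M i j hs (K.tR, p) = Oc s M i j hs := by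
  induction p with
  | zero => rfl
  | succ p ih =>
    by_cases h1 : p + 1 ≤ s
    · exact (left_part s M i j hs _ h1).1
    by_cases h2 : p + 1 ≤ s + 2 * i
    · exact (Aq_all s M i j hs hi i le_rfl (p + 1) (by omega) h2).1
    · rw [pl_tR s M i j hs hp (st3_big s i j hji (by omega))]
      exact ih (by omega)

include hi in
theorem bL_outer (p : ℕ) (h1 : s ≤ p) (hp : p ≤ s + M) :
    q s M i j hs (K.bL, p) = Oc s M i j hs := by
  induction p, h1 using Nat.le_induction with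
  | base => exact (at_s s M i j hs hi).2.2
  | succ p h1 ih => rw [bL_bL s M i j hs h1 hp]; exact ih (by omega)

include hi hji in
theorem tL_class (p : ℕ) (hp : p ≤ s + M) : q s M i j hs (K.tL, p) =
    if s + 2 * i < p ∧ p < s + M then q s M i j hs (K.tL, p) else Oc s M i j hs := by
  split_ifs with h
  · rfl
  · by_cases h1 : p ≤ s
    · exact (left_part s M i j hs p h1).2
    by_cases h2 : p ≤ s + 2 * i
    · exact (Aq_all s M i j hs hi i le_rfl p (by omega) h2).2.1
    · have h3 : p = s + M := by omega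
      subst h3
      rw [← tR_outer s M i j hs hji hi (s + M) le_rfl, ← q_tR s M i j hs le_rfl, t_tL_end]

/-- representative of the class of a label -/
def rp (x : K × ℕ) : K × ℕ :=
  if sq s M x ≤ s + 2 * i then (K.tR, 0) else (K.tL, sq s M x)

include hi hji in
theorem class_rp (x : K × ℕ) (h : valid s M x) :
    q s M i j hs x = q s M i j hs (rp s M i x) := by
  have hbR : ∀ p, s ≤ p → p ≤ s + M → q s M i j hs (K.bR, p) =
      q s M i j hs (rp s M i (K.bR, p)) := by
    intro p h1 h2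
    unfold rp
    rw [sq_bR]
    by_cases h3 : p ≤ s + 2 * i
    · rw [if_pos (by split_ifs <;> omega)]
      exact (Aq_all s M i j hs hi i le_rfl p h1 h3).2.2.1
    by_cases h4 : p = s + M
    · subst h4
      rw [if_pos (by split_ifs <;> omega), ← q_bR s M i j hs h1 h2, t_bL_end]
      exact bL_outer s M i j hs hi _ h1 h2
    · obtain ⟨p, rfl⟩ : ∃ q, p = q + 1 := ⟨p - 1, by omega⟩
      rw [if_pos (show s + 1 ≤ p + 1 ∧ p + 1 + 1 ≤ s + M by omega), if_neg h3,
        ← D_bR s M i j hs (by omega) h2,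
        ← pl_tL s M i j hs h2 (st3_big s i j hji (by omega))]
  have hU : ∀ p, 1 ≤ p → p ≤ s + M → q s M i j hs (K.U, p) =
      q s M i j hs (rp s M i (K.U, p)) := by
    intro p h1 h2
    obtain ⟨p, rfl⟩ : ∃ q, p = q + 1 := ⟨p - 1, by omega⟩
    by_cases h3 : p + 1 ≤ s
    · have h0 : st3 s i j (p + 1) = 0 := st3_le s i j h3
      have e : rp s M i (K.U, p + 1) = (K.tR, 0) := by
        unfold rp
        rw [sq_U, if_pos (by split_ifs <;> omega)]
      rw [e, pl_U s M i j hs h2 h0]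
      exact (left_part s M i j hs p (by omega)).2
    · have e : rp s M i (K.U, p + 1) = rp s M i (K.bR, p) := by
        have e2 : sq s M (K.U, p + 1) = sq s M (K.bR, p) := by
          rw [sq_U, sq_bR]; split_ifs <;> omega
        unfold rp
        rw [e2]
      rw [e, ← hbR p (by omega) (by omega), bR_U s M i j hs (by omega) h2]
  have hD : ∀ p, 1 ≤ p → p ≤ s + M → q s M i j hs (K.D, p) =
      q s M i j hs (rp s M i (K.D, p)) := by
    intro p h1 h2
    by_cases h3 : p ≤ s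
    · have e : rp s M i (K.D, p) = rp s M i (K.U, p) := by
        have e2 : sq s M (K.D, p) = sq s M (K.U, p) := by
          rw [sq_U, sq_D]; split_ifs <;> omega
        unfold rp
        rw [e2]
      rw [D_U s M i j hs h1 h3 h2, e]
      exact hU p h1 h2
    · have e : rp s M i (K.D, p) = rp s M i (K.bR, p) := rfl
      rw [D_bR s M i j hs (by omega) h2, e]
      exact hbR p (by omega) h2
  rcases x with ⟨k, p⟩
  cases k
  · have h' : p ≤ s + M := h
    rw [tL_class s M i j hs hji hi p h']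
    unfold rp
    rw [sq_tL]
    by_cases h3 : s + 2 * i < p ∧ p < s + M
    · rw [if_pos h3, if_pos (show s + 1 ≤ p ∧ p + 1 ≤ s + M by omega),
        if_neg (show ¬ p ≤ s + 2 * i by omega)]
    · rw [if_neg h3, if_pos (by split_ifs <;> omega)]
  · have h' : p ≤ s + M := h
    rw [tR_outer s M i j hs hji hi p h']
    simp [rp, sq]
  · exact hD p h.1 h.2
  · exact hU p h.1 h.2
  · rw [bL_outer s M i j hs hi p h.1 h.2]
    simp [rp, sq]
  · exact hbR p h.1 h.2

theorem sq_le (x : K × ℕ) (hM : 1 ≤ M) : sq s M x ≤ s + M - 1 := by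
  rcases x with ⟨k, p⟩
  cases k <;> simp only [sq_tL, sq_D, sq_bR, sq_U, sq_tR, sq_bL] <;> (try split_ifs) <;> omega

include hi hji in
theorem cyc_cur : cyc (cur s M (st3 s i j) hs).π = M - 2 * i := by
  have key : Nat.card (Quot (fun a b => b = (cur s M (st3 s i j) hs).π a)) =
      Nat.card (Fin (M - 2 * i)) := by
    refine Nat.card_eq_of_bijective (Quot.lift (fun x : Lb s M =>
      (⟨sq s M x.1 - (s + 2 * i), by
        have := sq_le s M x.1 (by omega); omega⟩ : Fin (M - 2 * i))) ?_) ⟨?_, ?_⟩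
    · intro a b hab
      subst hab
      refine Fin.ext ?_
      exact (sq_inv s M i j hji hi a.1 a.2).symm
    · intro u v
      induction u using Quot.ind with
      | mk x =>
      induction v using Quot.ind with
      | mk y =>
      intro hxy
      have hxy' : sq s M x.1 - (s + 2 * i) = sq s M y.1 - (s + 2 * i) :=
        congrArg Fin.val hxy
      have e : rp s M i x.1 = rp s M i y.1 := by
        unfold rp
        by_cases h1 : sq s M x.1 ≤ s + 2 * i
        · rw [if_pos h1, if_pos (by omega)]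
        · rw [if_neg h1, if_neg (by omega)]
          have : sq s M x.1 = sq s M y.1 := by omega
          rw [this]
      have h1 := class_rp s M i j hs hji hi x.1 x.2
      have h2 := class_rp s M i j hs hji hi y.1 y.2
      rw [e, ← h2] at h1
      unfold q at h1
      rw [dif_pos x.2, dif_pos y.2] at h1
      exact h1
    · intro u
      rcases u with ⟨u, hu⟩
      rcases u with _ | u
      · refine ⟨Quot.mk _ ⟨(K.tR, 0), Nat.zero_le _⟩, Fin.ext ?_⟩
        simp [sq]
      · refine ⟨Quot.mk _ ⟨(K.tL, s + 2 * i + (u + 1)), ?_⟩, Fin.ext ?_⟩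
        · simp only [valid]; omega
        · simp only [sq]
          rw [if_pos (by omega)]
          omega
  unfold cyc
  rw [key, Nat.card_eq_fintype_card, Fintype.card_fin]

end faces

end Lad

end Run7.h951
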