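import Pool.Agent.Run7.h951.Ladder2

/-! Vortices of the ladder. -/

namespace Run7.h951

open Equiv

theorem tc_le {N : ℕ} [NeZero N] (v : ZMod N) (A C : ℤ) (hC : C ≠ 0)
    (h : (A : ZMod N) * v = (C : ZMod N)) : Cur.tc v ≤ C.natAbs := by
  classical
  have step : ∀ (k : ℕ) (x : ZMod N), Quot.mk (fun a b : ZMod N => b = a - v) (x - k * v) =
      Quot.mk _ x := by
    intro k
    induction k with
    | zero => intro x; simp
    | succ k ih =>
      intro x
      have e : x - ((k + 1 : ℕ) : ZMod N) * v = (x - k * v) - v := by push_cast; ring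
      rw [e, ← ih x]
      exact (Quot.sound (r := fun a b : ZMod N => b = a - v) rfl).symm
  have stepz : ∀ (k : ℤ) (x : ZMod N), Quot.mk (fun a b : ZMod N => b = a - v) (x + k * v) =
      Quot.mk _ x := by
    intro k x
    rcases Int.eq_nat_or_neg k with ⟨n, rfl | rfl⟩
    · have := step n (x + (n : ℤ) * v)
      rw [← this]
      congr 1
      push_cast
      ring
    · have := step n x
      rw [← this]
      congr 1
      push_cast
      ring
  have hpos : 0 < C.natAbs := by omega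
  unfold Cur.tc
  have : Nat.card (Fin C.natAbs) = C.natAbs := by simp
  refine le_trans (Nat.card_le_card_of_surjective
    (fun r : Fin C.natAbs => Quot.mk (fun a b : ZMod N => b = a - v) ((r.1 : ℕ) : ZMod N)) ?_)
    (le_of_eq this)
  intro u
  induction u using Quot.ind with
  | mk x =>
    refine ⟨⟨x.val % C.natAbs, Nat.mod_lt _ hpos⟩, ?_⟩
    simp only
    have hx : ∃ t : ℤ, x = ((x.val % C.natAbs : ℕ) : ZMod N) + ((t * A : ℤ) : ZMod N) * v := by
      have h1 := Nat.mod_add_div x.val C.natAbs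
      refine ⟨(x.val / C.natAbs : ℕ) * C.sign, ?_⟩
      have h2 : ((x.val / C.natAbs : ℕ) * C.sign : ℤ) * C =
          (C.natAbs * (x.val / C.natAbs) : ℕ) := by
        push_cast
        rw [mul_assoc, Int.sign_mul_self_eq_natAbs]
        push_cast
        ring
      have h3 : (((((x.val / C.natAbs : ℕ) * C.sign : ℤ) * A : ℤ)) : ZMod N) * v =
          ((C.natAbs * (x.val / C.natAbs) : ℕ) : ZMod N) := by
        rw [Int.cast_mul, mul_assoc, h, ← Int.cast_mul, h2, Int.cast_natCast]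
      rw [h3, ← Nat.cast_add, h1]
      simp
    obtain ⟨t, ht⟩ := hx
    conv_rhs => rw [ht]
    rw [stepz]

namespace Lad

theorem tc_iv (s M : ℕ) (x : K × ℕ) (A B C : ℤ) (hC : C ≠ 0)
    (h : A * iv s M x = B * (6 * M + 5 + 4 * s : ℕ) + C) :
    Cur.tc (iv s M x : ZMod (6 * M + 5 + 4 * s)) ≤ C.natAbs := by
  refine tc_le _ A C hC ?_
  rw [← Int.cast_mul, h]
  rw [Int.cast_add, Int.cast_mul, Int.cast_natCast, ZMod.natCast_self, mul_zero, zero_add]

/-- index of the vortices -/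
abbrev E (s j : ℕ) : Type := Fin 4 ⊕ (Fin s ⊕ (Fin j × Fin 3))

/-- the vortices -/
def ee (s M j : ℕ) : E s j → K × ℕ
  | Sum.inl 0 => (K.tL, s + M)
  | Sum.inl 1 => (K.tR, 0)
  | Sum.inl 2 => (K.bL, s + M)
  | Sum.inl 3 => (K.bR, s)
  | Sum.inr (Sum.inl a) => (K.U, a.1 + 1)
  | Sum.inr (Sum.inr (r, 0)) => (K.tL, s + 2 * r.1 + 1)
  | Sum.inr (Sum.inr (r, 1)) => (K.tR, s + 2 * r.1 + 2)
  | Sum.inr (Sum.inr (r, 2)) => (K.D, s + 2 * r.1 + 2)

/-- bounds -/
def bd (s j : ℕ) : E s j → ℕ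
  | Sum.inl 0 => 11
  | Sum.inl 1 => 1
  | Sum.inl 2 => 3
  | Sum.inl 3 => 4
  | Sum.inr (Sum.inl _) => 7
  | Sum.inr (Sum.inr (r, 0)) => 3 * r.1 + 3
  | Sum.inr (Sum.inr (r, 1)) => 3 * r.1 + 5
  | Sum.inr (Sum.inr (r, 2)) => 12 * r.1 + 19

theorem ee_bd (s M j : ℕ) (hs : s ≤ 2) (hj : j ≤ 3) (hM : 2 * j + 1 ≤ M) (x : E s j) :
    Cur.tc (iv s M (ee s M j x) : ZMod (6 * M + 5 + 4 * s)) ≤ bd s j x := by
  rcases x with x | x | ⟨r, x⟩
  · fin_cases x
    · show Cur.tc (iv s M (K.tL, s + M) : ZMod (6 * M + 5 + 4 * s)) ≤ 11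
      rcases Nat.even_or_odd' (s + M) with ⟨t, ht | ht⟩
      · refine le_trans (tc_iv s M _ 12 5 (-1 - 2 * s) (by omega) ?_) (by omega)
        simp only [iv, hh]
        (try split_ifs) <;> omega
      · refine le_trans (tc_iv s M _ 12 5 (-7 - 2 * s) (by omega) ?_) (by omega)
        simp only [iv, hh]
        (try split_ifs) <;> omega
    · show Cur.tc (iv s M (K.tR, 0) : ZMod (6 * M + 5 + 4 * s)) ≤ 1
      refine le_trans (tc_iv s M _ (-2) 1 (-1) (by omega) ?_) (by omega)
      simp only [iv, hh]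
      (try split_ifs) <;> omega
    · show Cur.tc (iv s M (K.bL, s + M) : ZMod (6 * M + 5 + 4 * s)) ≤ 3
      rcases Nat.even_or_odd' (s + M) with ⟨t, ht | ht⟩
      · have hv : iv s M (K.bL, s + M) = cc s M - (2 * (s + M) + 2 - s + (s + M - t)) := by
          simp only [iv, hh]
          (try split_ifs) <;> omega
        interval_cases s
        · refine le_trans (tc_iv _ M _ 4 (-1) 1 (by omega) ?_) (by omega)
          rw [hv]; simp only [cc]; omega
        · refine le_trans (tc_iv _ M _ 4 (-1) (-1) (by omega) ?_) (by omega)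
          rw [hv]; simp only [cc]; omega
        · refine le_trans (tc_iv _ M _ 4 (-1) 1 (by omega) ?_) (by omega)
          rw [hv]; simp only [cc]; omega
      · have hv : iv s M (K.bL, s + M) = cc s M - (2 * (s + M) + 2 - s + t) := by
          simp only [iv, hh]
          (try split_ifs) <;> omega
        interval_cases s
        · refine le_trans (tc_iv _ M _ 4 (-1) 3 (by omega) ?_) (by omega)
          rw [hv]; simp only [cc]; omega
        · refine le_trans (tc_iv _ M _ 4 (-1) 1 (by omega) ?_) (by omega)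
          rw [hv]; simp only [cc]; omega
        · refine le_trans (tc_iv _ M _ 4 (-1) 3 (by omega) ?_) (by omega)
          rw [hv]; simp only [cc]; omega
    · show Cur.tc (iv s M (K.bR, s) : ZMod (6 * M + 5 + 4 * s)) ≤ 4
      interval_cases s
      · refine le_trans (tc_iv _ M _ 3 1 (-2) (by omega) ?_) (by omega)
        norm_num [iv, hh, cc] <;> omega
      · refine le_trans (tc_iv _ M _ 6 1 3 (by omega) ?_) (by omega)
        norm_num [iv, hh, cc] <;> omega
      · refine le_trans (tc_iv _ M _ 3 1 (-4) (by omega) ?_) (by omega)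
        norm_num [iv, hh, cc] <;> omega
  · rcases x with ⟨x, hx⟩
    show Cur.tc (iv s M (K.U, x + 1) : ZMod (6 * M + 5 + 4 * s)) ≤ 7
    have h1 : x < 2 := by omega
    interval_cases s
    · omega
    · interval_cases x
      refine le_trans (tc_iv _ M _ 6 1 (-3) (by omega) ?_) (by omega)
      norm_num [iv, hh] <;> omega
    · interval_cases x
      · refine le_trans (tc_iv _ M _ 6 1 (-1) (by omega) ?_) (by omega)
        norm_num [iv, hh] <;> omega
      · refine le_trans (tc_iv _ M _ (-6) 1 (-7) (by omega) ?_) (by omega)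
        norm_num [iv, hh] <;> omega
  · rcases r with ⟨r, hr⟩
    fin_cases x
    · show Cur.tc (iv s M (K.tL, s + 2 * r + 1) : ZMod (6 * M + 5 + 4 * s)) ≤ 3 * r + 3
      interval_cases s
      · refine le_trans (tc_iv _ M _ 3 1 (3 * r + 1) (by omega) ?_) (by omega)
        simp only [iv, hh]
        (try split_ifs) <;> omega
      · refine le_trans (tc_iv _ M _ 2 1 (- (2 * r + 3)) (by omega) ?_) (by omega)
        simp only [iv, hh]
        (try split_ifs) <;> omega
      · refine le_trans (tc_iv _ M _ 3 1 (3 * r + 2) (by omega) ?_) (by omega)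
        simp only [iv, hh]
        (try split_ifs) <;> omega
    · show Cur.tc (iv s M (K.tR, s + 2 * r + 2) : ZMod (6 * M + 5 + 4 * s)) ≤ 3 * r + 5
      interval_cases s
      · refine le_trans (tc_iv _ M _ (-2) 1 (- (2 * r + 3)) (by omega) ?_) (by omega)
        simp only [iv, hh]
        (try split_ifs) <;> omega
      · refine le_trans (tc_iv _ M _ (-3) 1 (3 * r + 3) (by omega) ?_) (by omega)
        simp only [iv, hh]
        (try split_ifs) <;> omega
      · refine le_trans (tc_iv _ M _ (-2) 1 (- (2 * r + 5)) (by omega) ?_) (by omega)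
        simp only [iv, hh]
        (try split_ifs) <;> omega
    · show Cur.tc (iv s M (K.D, s + 2 * r + 2) : ZMod (6 * M + 5 + 4 * s)) ≤ 12 * r + 19
      interval_cases s
      · refine le_trans (tc_iv _ M _ 6 1 (- (12 * r + 11)) (by omega) ?_) (by omega)
        simp only [iv, hh]
        (try split_ifs) <;> omega
      · refine le_trans (tc_iv _ M _ (-6) 1 (- (12 * r + 15)) (by omega) ?_) (by omega)
        simp only [iv, hh]
        (try split_ifs) <;> omega
      · refine le_trans (tc_iv _ M _ 6 1 (- (12 * r + 19)) (by omega) ?_) (by omega)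
        simp only [iv, hh]
        (try split_ifs) <;> omega

theorem bd_sum (s j : ℕ) (hs : s ≤ 2) (hj : j ≤ 3) : ∑ x : E s j, bd s j x ≤ 168 := by
  interval_cases s <;> interval_cases j <;> decide

theorem ee_valid (s M i j : ℕ) (hji : j ≤ i) (hi : 2 * i + 1 ≤ M) (x : E s j) :
    valid s M (ee s M j x) := by
  rcases x with x | x | ⟨r, x⟩
  · fin_cases x <;> simp only [ee, valid] <;> omega
  · simp only [ee, valid]; omega
  · fin_cases x <;> simp only [ee, valid] <;> omega

theorem st3_two (s i j p : ℕ) (r : ℕ) (hr : r < j) (hp : p = s + 2 * r + 2) :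
    st3 s i j p = 2 := by
  unfold st3
  rw [if_neg (by omega), if_neg (by omega), if_pos (by omega)]

theorem st3_eq_two (s i j p : ℕ) (h : st3 s i j p = 2) : ∃ r, r < j ∧ p = s + 2 * r + 2 := by
  unfold st3 at h
  by_cases h1 : p ≤ s
  · rw [if_pos h1] at h; omega
  by_cases h2 : (p - s) % 2 = 1
  · rw [if_neg h1, if_pos h2] at h; omega
  by_cases h3 : p - s ≤ 2 * j
  · exact ⟨(p - s) / 2 - 1, by omega, by omega⟩
  · rw [if_neg h1, if_neg h2, if_neg h3] at h
    split_ifs at h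
    omega

theorem ee_fix (s M i j : ℕ) (x : E s j) :
    t0 s M (st3 s i j) (ee s M j x) = ee s M j x := by
  rcases x with x | x | ⟨r, x⟩
  · fin_cases x
    · exact t_tL_end
    · exact t_tR_0
    · exact t_bL_end
    · exact t_bR0 le_rfl
  · exact t_U0 (by omega)
  · fin_cases x
    · exact t_tL2 (st3_two s i j _ r.1 r.2 rfl)
    · exact t_tR2 (st3_two s i j _ r.1 r.2 rfl)
    · exact t_D2 (st3_two s i j _ r.1 r.2 rfl)

theorem ee_inj (s M i j : ℕ) (hji : j ≤ i) (hi : 2 * i + 1 ≤ M) :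
    Function.Injective (ee s M j) := by
  intro x y h
  rcases x with x | x | ⟨x, t⟩ <;> rcases y with y | y | ⟨y, u⟩
  · fin_cases x <;> fin_cases y <;> simp [ee] at h ⊢
  · fin_cases x <;> simp [ee] at h
  · fin_cases x <;> fin_cases u <;> simp [ee] at h <;> omega
  · fin_cases y <;> simp [ee] at h
  · simp only [ee, Prod.mk.injEq, true_and] at h
    have : x = y := Fin.ext (by omega)
    rw [this]
  · fin_cases u <;> simp [ee] at h
  · fin_cases y <;> fin_cases t <;> simp [ee] at h <;> omega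
  · fin_cases t <;> simp [ee] at h
  · fin_cases t <;> fin_cases u <;> simp [ee] at h ⊢ <;> exact Fin.ext h

theorem ee_surj (s M i j : ℕ) (x : K × ℕ) (h : valid s M x)
    (hx : t0 s M (st3 s i j) x = x) : ∃ y, ee s M j y = x := by
  rcases x with ⟨k, p⟩
  cases k
  · have h' : p ≤ s + M := h
    by_cases h1 : p = s + M
    · subst h1; exact ⟨Sum.inl 0, rfl⟩
    by_cases h2 : st3 s i j (p + 1) = 2
    · obtain ⟨r, hr, hp⟩ := st3_eq_two s i j _ h2
      refine ⟨Sum.inr (Sum.inr (⟨r, hr⟩, 0)), ?_⟩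
      simp only [ee]
      rw [show p = s + 2 * r + 1 by omega]
    by_cases h0 : st3 s i j (p + 1) = 0
    · rw [t_tL0 h1 h0] at hx; simp at hx
    · rw [t_tL1 h1 h0 h2] at hx; simp at hx
  · rcases p with _ | p
    · exact ⟨Sum.inl 1, rfl⟩
    by_cases h2 : st3 s i j (p + 1) = 2
    · obtain ⟨r, hr, hp⟩ := st3_eq_two s i j _ h2
      refine ⟨Sum.inr (Sum.inr (⟨r, hr⟩, 1)), ?_⟩
      simp only [ee]
      rw [hp]
    by_cases h0 : st3 s i j (p + 1) = 0
    · rw [t_tR0 h0] at hx; simp at hx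
    · rw [t_tR1 h0 h2] at hx; simp at hx
  · have h' : 1 ≤ p ∧ p ≤ s + M := h
    obtain ⟨p, rfl⟩ : ∃ q, p = q + 1 := ⟨p - 1, by omega⟩
    by_cases h2 : st3 s i j (p + 1) = 2
    · obtain ⟨r, hr, hp⟩ := st3_eq_two s i j _ h2
      refine ⟨Sum.inr (Sum.inr (⟨r, hr⟩, 2)), ?_⟩
      simp only [ee]
      rw [hp]
    by_cases h0 : st3 s i j (p + 1) = 0
    · rw [t_D0 h0] at hx; simp at hx
    · rw [t_D1 h0 h2] at hx; simp at hx
  · have h' : 1 ≤ p ∧ p ≤ s + M := h
    by_cases h1 : p ≤ s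
    · refine ⟨Sum.inr (Sum.inl ⟨p - 1, by omega⟩), ?_⟩
      simp only [ee]
      rw [show p - 1 + 1 = p by omega]
    · rw [t_U h1] at hx; simp at hx
  · have h' : s ≤ p ∧ p ≤ s + M := h
    by_cases h1 : p = s + M
    · subst h1; exact ⟨Sum.inl 2, rfl⟩
    · rw [t_bL h1] at hx; simp at hx
  · have h' : s ≤ p ∧ p ≤ s + M := h
    by_cases h1 : p ≤ s
    · have : p = s := by omega
      subst this
      exact ⟨Sum.inl 3, rfl⟩
    · obtain ⟨p, rfl⟩ : ∃ q, p = q + 1 := ⟨p - 1, by omega⟩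
      rw [t_bR h1] at hx; simp at hx

section vort

variable (s M i j : ℕ) (hs : s ≤ 2) (hji : j ≤ i) (hi : 2 * i + 1 ≤ M)

/-- the vortices as a subtype -/
def ev (x : E s j) : (cur s M (st3 s i j) hs).W :=
  ⟨⟨ee s M j x, ee_valid s M i j hji hi x⟩, Subtype.ext (ee_fix s M i j x)⟩

theorem ev_bij : Function.Bijective (ev s M i j hs hji hi) := by
  constructor
  · intro x y h
    exact ee_inj s M i j hji hi (congrArg (fun z => z.1.1) h)
  · rintro ⟨⟨x, hx⟩, hw⟩
    obtain ⟨y, hy⟩ := ee_surj s M i j x hx (congrArg Subtype.val hw)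
    exact ⟨y, Subtype.ext (Subtype.ext hy)⟩

include hji hi in
theorem card_W : Fintype.card (cur s M (st3 s i j) hs).W = 4 + s + 3 * j := by
  rw [← Fintype.card_of_bijective (ev_bij s M i j hs hji hi)]
  rw [Fintype.card_sum, Fintype.card_sum, Fintype.card_prod, Fintype.card_fin,
    Fintype.card_fin, Fintype.card_fin, Fintype.card_fin]
  omega

include hji hi in
theorem sum_tc (hj : j ≤ 3) : ∑ w : (cur s M (st3 s i j) hs).W,
    Cur.tc ((cur s M (st3 s i j) hs).val w.1) ≤ 168 := by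
  have h := Fintype.sum_bijective (ev s M i j hs hji hi) (ev_bij s M i j hs hji hi)
    (fun x => Cur.tc ((cur s M (st3 s i j) hs).val (ev s M i j hs hji hi x).1))
    (fun w => Cur.tc ((cur s M (st3 s i j) hs).val w.1)) (fun x => rfl)
  rw [← h]
  refine le_trans (Finset.sum_le_sum fun x _ => ?_) (bd_sum s j hs hj)
  exact ee_bd s M j hs hj (by omega) x

end vort

/-- the near-optimal maps: `n` countries with at most `m` parts -/
theorem good_ladder (s j m r : ℕ) (hs : s ≤ 2) (hj : j ≤ 3) (hm : 1 ≤ m) (hr : j ≤ r) :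
    ∃ ε : ℤ, Good true ε (6 * (m + 2 * r) + 9 + 5 * s + 3 * j) m ∧ Even ε ∧
      ((6 * (m + 2 * r) + 9 + 5 * s + 3 * j : ℕ) : ℤ) *
        (6 * m + 1 - (6 * (m + 2 * r) + 9 + 5 * s + 3 * j : ℕ)) - 90 * m - 1878 ≤ 6 * ε := by
  have hi : 2 * r + 1 ≤ m + 2 * r := by omega
  obtain ⟨ε, h1, h2, h3⟩ := (cur s (m + 2 * r) (st3 s r j) hs).good (card_Lb s (m + 2 * r))
    (fun l => cn_all s (m + 2 * r) (st3 s r j) hs l)
    (ev s (m + 2 * r) r j hs hr hi (Sum.inl 0)) 168 (sum_tc s (m + 2 * r) r j hs hr hi hj)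
    (4 + s + 3 * j) (6 * (m + 2 * r) + 9 + 5 * s + 3 * j) m
    (card_W s (m + 2 * r) r j hs hr hi) (by omega)
    (by rw [cyc_cur s (m + 2 * r) r j hs hr hi]; omega)
  refine ⟨ε, h1, h2, le_trans ?_ h3⟩
  have hs' : (s : ℤ) ≤ 2 := by exact_mod_cast hs
  have hj' : (j : ℤ) ≤ 3 := by exact_mod_cast hj
  have hm' : (1 : ℤ) ≤ m := by exact_mod_cast hm
  generalize (((6 * (m + 2 * r) + 9 + 5 * s + 3 * j : ℕ) : ℤ) *
        (6 * m + 1 - (6 * (m + 2 * r) + 9 + 5 * s + 3 * j : ℕ))) = X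
  have hw : (((4 + s + 3 * j : ℕ)) : ℤ) ≤ 15 := by push_cast; linarith
  have hw0 : (4 : ℤ) ≤ (((4 + s + 3 * j : ℕ)) : ℤ) := by push_cast; omega
  generalize (((4 + s + 3 * j : ℕ)) : ℤ) = w at hw hw0
  have e1 := mul_nonneg (show (0 : ℤ) ≤ 15 - w by linarith) (show (0 : ℤ) ≤ m by linarith)
  have e2 := mul_nonneg (show (0 : ℤ) ≤ 15 - w by linarith)
    (show (0 : ℤ) ≤ 5 * w + 58 by linarith)
  have e3 : ((168 : ℕ) : ℤ) = 168 := rfl
  rw [e3]
  nlinarith [e1, e2]

end Lad

end Run7.h951
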