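import Pool.Agent.Run7.h951.Defs

/-! Adding a handle or a crosscap to a cell map. -/

namespace Run7.h951

open Classical in
/-- `r1` of the spliced map -/
noncomputable def spl1 (M : CellMap) (x0 : M.Flag) {k : ℕ} (p1 : Fin k → Fin k) (i o : Fin k) :
    M.Flag ⊕ Fin k → M.Flag ⊕ Fin k
  | Sum.inl x => if x = x0 then Sum.inr i else if x = M.r1 x0 then Sum.inr o else Sum.inl (M.r1 x)
  | Sum.inr p => if p = i then Sum.inl x0 else if p = o then Sum.inl (M.r1 x0) else Sum.inr (p1 p)

/-- polygon data -/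
structure Poly (k : ℕ) where
  p0 : Fin k → Fin k
  p1 : Fin k → Fin k
  p2 : Fin k → Fin k
  i : Fin k
  o : Fin k
  h0 : ∀ x, p0 (p0 x) = x
  h1 : ∀ x, p1 (p1 x) = x
  h2 : ∀ x, p2 (p2 x) = x
  n0 : ∀ x, p0 x ≠ x
  n1 : ∀ x, p1 x ≠ x
  n2 : ∀ x, p2 x ≠ x
  cm : ∀ x, p0 (p2 x) = p2 (p0 x)
  n02 : ∀ x, p0 (p2 x) ≠ x
  io : p1 i = o
  -- paths from i inside the polygon not using the pair (i,o)
  pathF : ∀ x, Relation.EqvGen (fun a b => b = p0 a ∨ (b = p1 a ∧ a ≠ i ∧ a ≠ o)) i x
  pathV : ∀ x, Relation.EqvGen (fun a b => b = p2 a ∨ (b = p1 a ∧ a ≠ i ∧ a ≠ o)) i x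

variable (M : CellMap) (x0 : M.Flag) {k : ℕ} (P : Poly k)

theorem Poly.oi : P.p1 P.o = P.i := by rw [← P.io, P.h1]
theorem Poly.ine : P.i ≠ P.o := by rw [← P.io]; exact (P.n1 _).symm

theorem spl1_x0 : spl1 M x0 P.p1 P.i P.o (Sum.inl x0) = Sum.inr P.i := by simp [spl1]
theorem spl1_y0 : spl1 M x0 P.p1 P.i P.o (Sum.inl (M.r1 x0)) = Sum.inr P.o := by
  simp [spl1, M.r1_ne]
theorem spl1_i : spl1 M x0 P.p1 P.i P.o (Sum.inr P.i) = Sum.inl x0 := by simp [spl1]
theorem spl1_o : spl1 M x0 P.p1 P.i P.o (Sum.inr P.o) = Sum.inl (M.r1 x0) := by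
  simp [spl1, P.ine.symm]
theorem spl1_inl {x : M.Flag} (h : x ≠ x0) (h' : x ≠ M.r1 x0) :
    spl1 M x0 P.p1 P.i P.o (Sum.inl x) = Sum.inl (M.r1 x) := by simp [spl1, h, h']
theorem spl1_inr {p : Fin k} (h : p ≠ P.i) (h' : p ≠ P.o) :
    spl1 M x0 P.p1 P.i P.o (Sum.inr p) = Sum.inr (P.p1 p) := by simp [spl1, h, h']

theorem spl1_inv (z : M.Flag ⊕ Fin k) :
    spl1 M x0 P.p1 P.i P.o (spl1 M x0 P.p1 P.i P.o z) = z := by
  rcases z with x | p
  · by_cases h : x = x0
    · subst h; rw [spl1_x0, spl1_i]
    · by_cases h' : x = M.r1 x0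
      · subst h'; rw [spl1_y0, spl1_o]
      · rw [spl1_inl M x0 P h h', spl1_inl, M.r1_inv]
        · intro hh; apply h'; rw [← hh, M.r1_inv]
        · intro hh; apply h
          have := congrArg M.r1 hh
          rwa [M.r1_inv, M.r1_inv] at this
  · by_cases h : p = P.i
    · subst h; rw [spl1_i, spl1_x0]
    · by_cases h' : p = P.o
      · subst h'; rw [spl1_o, spl1_y0]
      · rw [spl1_inr M x0 P h h', spl1_inr, P.h1]
        · intro hh; apply h'; rw [← P.h1 p, hh, P.io]
        · intro hh; apply h; rw [← P.h1 p, hh, P.oi]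

theorem spl1_ne (z : M.Flag ⊕ Fin k) : spl1 M x0 P.p1 P.i P.o z ≠ z := by
  rcases z with x | p
  · by_cases h : x = x0
    · subst h; rw [spl1_x0]; simp
    · by_cases h' : x = M.r1 x0
      · subst h'; rw [spl1_y0]; simp
      · rw [spl1_inl M x0 P h h']
        intro hh; exact M.r1_ne x (Sum.inl.inj hh)
  · by_cases h : p = P.i
    · subst h; rw [spl1_i]; simp
    · by_cases h' : p = P.o
      · subst h'; rw [spl1_o]; simp
      · rw [spl1_inr M x0 P h h']
        intro hh; exact P.n1 p (Sum.inr.inj hh)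

/-- the other two involutions -/
def splA (f : M.Flag → M.Flag) (g : Fin k → Fin k) : M.Flag ⊕ Fin k → M.Flag ⊕ Fin k
  | Sum.inl x => Sum.inl (f x)
  | Sum.inr p => Sum.inr (g p)

/-- paths in the polygon lift -/
theorem lift_path (g : Fin k → Fin k) (f : M.Flag → M.Flag)
    (R : M.Flag ⊕ Fin k → M.Flag ⊕ Fin k → Prop)
    (hR : ∀ a b, (b = splA M f g a ∨ b = spl1 M x0 P.p1 P.i P.o a) → R a b)
    (hp : ∀ x, Relation.EqvGen (fun a b => b = g a ∨ (b = P.p1 a ∧ a ≠ P.i ∧ a ≠ P.o)) P.i x)
    (p : Fin k) : Relation.EqvGen R (Sum.inl x0) (Sum.inr p) := by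
  refine Relation.EqvGen.trans _ (Sum.inr P.i) _ (Relation.EqvGen.rel _ _ (hR _ _ (Or.inr ?_))) ?_
  · rw [spl1_x0]
  · have h := hp p
    have key : ∀ a b : Fin k, Relation.EqvGen
        (fun a b => b = g a ∨ (b = P.p1 a ∧ a ≠ P.i ∧ a ≠ P.o)) a b →
        Relation.EqvGen R (Sum.inr a) (Sum.inr b) := by
      intro a b hab
      induction hab with
      | rel a b h =>
        apply Relation.EqvGen.rel
        apply hR
        rcases h with h | ⟨h, h1, h2⟩
        · left; rw [h]; rfl
        · right; rw [spl1_inr M x0 P h1 h2, h]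
      | refl a => exact Relation.EqvGen.refl _
      | symm a b _ ih => exact ih.symm
      | trans a b c _ _ ih1 ih2 => exact ih1.trans _ _ _ ih2
    exact key _ _ h

/-- the spliced map -/
noncomputable def splice : CellMap where
  Flag := M.Flag ⊕ Fin k
  fin := by have := M.fin; infer_instance
  ne := ⟨Sum.inl x0⟩
  r0 := splA M M.r0 P.p0
  r1 := spl1 M x0 P.p1 P.i P.o
  r2 := splA M M.r2 P.p2
  r0_inv := by rintro (x | p) <;> simp [splA, M.r0_inv, P.h0]
  r1_inv := spl1_inv M x0 P
  r2_inv := by rintro (x | p) <;> simp [splA, M.r2_inv, P.h2]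
  r0_ne := by rintro (x | p) <;> simp [splA, M.r0_ne, P.n0]
  r1_ne := spl1_ne M x0 P
  r2_ne := by rintro (x | p) <;> simp [splA, M.r2_ne, P.n2]
  comm := by rintro (x | p) <;> simp [splA, M.comm, P.cm]
  r02_ne := by rintro (x | p) <;> simp [splA, M.r02_ne, P.n02]
  conn := by
    set R : M.Flag ⊕ Fin k → M.Flag ⊕ Fin k → Prop :=
      fun a b => b = splA M M.r0 P.p0 a ∨ b = spl1 M x0 P.p1 P.i P.o a ∨ b = splA M M.r2 P.p2 a
      with hR
    have hP : ∀ p, Relation.EqvGen R (Sum.inl x0) (Sum.inr p) := by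
      intro p
      refine lift_path M x0 P P.p0 M.r0 R ?_ P.pathF p
      rintro a b (h | h)
      · exact Or.inl h
      · exact Or.inr (Or.inl h)
    have hy : Relation.EqvGen R (Sum.inl x0) (Sum.inl (M.r1 x0)) := by
      refine (hP P.o).trans _ _ _ ?_
      exact Relation.EqvGen.rel _ _ (Or.inr (Or.inl (spl1_o M x0 P).symm))
    have hM : ∀ x y, Relation.EqvGen R (Sum.inl x) (Sum.inl y) := by
      intro x y
      have := M.conn x y
      induction this with
      | rel a b h =>
        rcases h with h | h | h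
        · exact Relation.EqvGen.rel _ _ (Or.inl (by rw [h]; rfl))
        · by_cases ha : a = x0
          · subst ha; rw [h]; exact hy
          · by_cases ha' : a = M.r1 x0
            · rw [h, ha', M.r1_inv]; exact hy.symm
            · exact Relation.EqvGen.rel _ _ (Or.inr (Or.inl (by rw [h, spl1_inl M x0 P ha ha'])))
        · exact Relation.EqvGen.rel _ _ (Or.inr (Or.inr (by rw [h]; rfl)))
      | refl a => exact Relation.EqvGen.refl _
      | symm a b _ ih => exact ih.symm
      | trans a b c _ _ ih1 ih2 => exact ih1.trans _ _ _ ih2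
    have hall : ∀ z, Relation.EqvGen R (Sum.inl x0) z := by
      rintro (x | p)
      · exact hM _ _
      · exact hP p
    intro x y
    exact (hall x).symm.trans _ _ _ (hall y)

/-- the induced map on faces -/
noncomputable def sFace : (splice M x0 P).Face → M.Face :=
  Quot.lift (fun z : M.Flag ⊕ Fin k => match z with
    | Sum.inl x => M.face x
    | Sum.inr _ => M.face x0) (by
    rintro (x | p) b h
    · rcases h with h | h
      · subst h; exact Quot.sound (Or.inl rfl)
      · change b = spl1 M x0 P.p1 P.i P.o (Sum.inl x) at h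
        by_cases hx : x = x0
        · subst hx; rw [spl1_x0] at h; subst h; rfl
        · by_cases hx' : x = M.r1 x0
          · subst hx'; rw [spl1_y0] at h; subst h
            refine Eq.symm ?_; exact Quot.sound (Or.inr rfl)
          · rw [spl1_inl M x0 P hx hx'] at h; subst h
            exact Quot.sound (Or.inr rfl)
    · rcases h with h | h
      · subst h; rfl
      · change b = spl1 M x0 P.p1 P.i P.o (Sum.inr p) at h
        by_cases hx : p = P.i
        · subst hx; rw [spl1_i] at h; subst h; rfl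
        · by_cases hx' : p = P.o
          · subst hx'; rw [spl1_o] at h; subst h
            exact Quot.sound (Or.inr rfl)
          · rw [spl1_inr M x0 P hx hx'] at h; subst h; rfl)

/-- the induced map on vertices -/
noncomputable def sVert : (splice M x0 P).Vertex → M.Vertex :=
  Quot.lift (fun z : M.Flag ⊕ Fin k => match z with
    | Sum.inl x => Quot.mk _ x
    | Sum.inr _ => Quot.mk _ x0) (by
    rintro (x | p) b h
    · rcases h with h | h
      · change b = spl1 M x0 P.p1 P.i P.o (Sum.inl x) at h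
        by_cases hx : x = x0
        · subst hx; rw [spl1_x0] at h; subst h; rfl
        · by_cases hx' : x = M.r1 x0
          · subst hx'; rw [spl1_y0] at h; subst h
            refine Eq.symm ?_; exact Quot.sound (Or.inl rfl)
          · rw [spl1_inl M x0 P hx hx'] at h; subst h
            exact Quot.sound (Or.inl rfl)
      · subst h; exact Quot.sound (Or.inr rfl)
    · rcases h with h | h
      · change b = spl1 M x0 P.p1 P.i P.o (Sum.inr p) at h
        by_cases hx : p = P.i
        · subst hx; rw [spl1_i] at h; subst h; rfl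
        · by_cases hx' : p = P.o
          · subst hx'; rw [spl1_o] at h; subst h
            exact Quot.sound (Or.inl rfl)
          · rw [spl1_inr M x0 P hx hx'] at h; subst h; rfl
      · subst h; rfl)

theorem sFace_bij : Function.Bijective (sFace M x0 P) := by
  have hP : ∀ p, (splice M x0 P).face (Sum.inr p) = (splice M x0 P).face (Sum.inl x0) := by
    intro p
    refine (Quot.eqvGen_sound (lift_path M x0 P P.p0 M.r0 _ ?_ P.pathF p)).symm
    intro a b h; exact h
  have hy : (splice M x0 P).face (Sum.inl (M.r1 x0)) = (splice M x0 P).face (Sum.inl x0) := by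
    rw [← hP P.o]
    refine Eq.symm ?_
    refine Quot.sound (Or.inr ?_)
    exact (spl1_o M x0 P).symm
  let g : M.Face → (splice M x0 P).Face :=
    Quot.lift (fun x => (splice M x0 P).face (Sum.inl x)) (by
      intro x y h
      rcases h with h | h
      · subst h; exact Quot.sound (Or.inl rfl)
      · subst h
        by_cases hx : x = x0
        · subst hx; exact hy.symm
        · by_cases hx' : x = M.r1 x0
          · subst hx'; rw [M.r1_inv]; exact hy
          · exact Quot.sound (Or.inr (spl1_inl M x0 P hx hx').symm))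
  refine Function.bijective_iff_has_inverse.mpr ⟨g, ?_, ?_⟩
  · intro q
    induction q using Quot.ind with
    | mk z =>
      rcases z with x | p
      · rfl
      · exact (hP p).symm
  · intro q
    induction q using Quot.ind with
    | mk z => rfl

theorem sVert_bij : Function.Bijective (sVert M x0 P) := by
  have hP : ∀ p, (Quot.mk _ (Sum.inr p) : (splice M x0 P).Vertex) = Quot.mk _ (Sum.inl x0) := by
    intro p
    refine (Quot.eqvGen_sound (lift_path M x0 P P.p2 M.r2 _ ?_ P.pathV p)).symm
    intro a b h; exact h.symm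
  have hy : (Quot.mk _ (Sum.inl (M.r1 x0)) : (splice M x0 P).Vertex) = Quot.mk _ (Sum.inl x0) := by
    rw [← hP P.o]
    refine Eq.symm ?_
    refine Quot.sound (Or.inl ?_)
    exact (spl1_o M x0 P).symm
  let g : M.Vertex → (splice M x0 P).Vertex :=
    Quot.lift (fun x => Quot.mk _ (Sum.inl x)) (by
      intro x y h
      rcases h with h | h
      · subst h
        by_cases hx : x = x0
        · subst hx; exact hy.symm
        · by_cases hx' : x = M.r1 x0
          · subst hx'; rw [M.r1_inv]; exact hy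
          · exact Quot.sound (Or.inl (spl1_inl M x0 P hx hx').symm)
      · subst h; exact Quot.sound (Or.inr rfl))
  refine Function.bijective_iff_has_inverse.mpr ⟨g, ?_, ?_⟩
  · intro q
    induction q using Quot.ind with
    | mk z =>
      rcases z with x | p
      · rfl
      · exact (hP p).symm
  · intro q
    induction q using Quot.ind with
    | mk z => rfl

/-- the edges of the polygon -/
def Poly.E : Type := Quot (fun a b : Fin k => b = P.p0 a ∨ b = P.p2 a)

theorem card_edge : Nat.card (splice M x0 P).Edge = Nat.card M.Edge + Nat.card P.E := by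
  have : Finite M.Flag := M.fin
  have h1 : Finite M.Edge := Finite.of_surjective (Quot.mk _) Quot.mk_surjective
  have h2 : Finite P.E := Finite.of_surjective (Quot.mk _) Quot.mk_surjective
  rw [← Nat.card_sum]
  refine Nat.card_congr (Equiv.mk
    (Quot.lift (fun z : M.Flag ⊕ Fin k => match z with
      | Sum.inl x => Sum.inl (Quot.mk _ x)
      | Sum.inr p => Sum.inr (Quot.mk _ p)) ?_)
    (fun s => match s with
      | Sum.inl e => Quot.lift (fun x => Quot.mk _ (Sum.inl x)) (by
          intro x y h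
          rcases h with h | h
          · subst h; exact Quot.sound (Or.inl rfl)
          · subst h; exact Quot.sound (Or.inr rfl)) e
      | Sum.inr e => Quot.lift (fun x => Quot.mk _ (Sum.inr x)) (by
          intro x y h
          rcases h with h | h
          · subst h; exact Quot.sound (Or.inl rfl)
          · subst h; exact Quot.sound (Or.inr rfl)) e) ?_ ?_)
  · rintro (x | p) b (h | h)
    · subst h; exact congrArg Sum.inl (Quot.sound (Or.inl rfl))
    · subst h; exact congrArg Sum.inl (Quot.sound (Or.inr rfl))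
    · subst h; exact congrArg Sum.inr (Quot.sound (Or.inl rfl))
    · subst h; exact congrArg Sum.inr (Quot.sound (Or.inr rfl))
  · intro q
    induction q using Quot.ind with
    | mk z => rcases z with x | p <;> rfl
  · rintro (e | e)
    · induction e using Quot.ind with
      | mk z => rfl
    · induction e using Quot.ind with
      | mk z => rfl

theorem splice_euler : (splice M x0 P).euler = M.euler - Nat.card P.E := by
  unfold CellMap.euler
  rw [card_edge, Nat.card_eq_of_bijective _ (sFace_bij M x0 P),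
    Nat.card_eq_of_bijective _ (sVert_bij M x0 P)]
  push_cast
  ring

/-- a map on a surface with `n` pairwise neighbouring countries of at most `m` parts -/
def Good (o : Bool) (ε : ℤ) (n m : ℕ) : Prop :=
  ∃ (M : CellMap) (country : M.Face → Fin n), (M.Orientable ↔ o = true) ∧ M.euler = ε ∧
    IsEmpire M country m ∧
    ∀ a b : Fin n, a ≠ b → ∃ x, country (M.face x) = a ∧ country (M.face (M.r2 x)) = b

theorem splice_good (n m : ℕ) (country : M.Face → Fin n) (hE : IsEmpire M country m)
    (hA : ∀ a b : Fin n, a ≠ b → ∃ x, country (M.face x) = a ∧ country (M.face (M.r2 x)) = b) :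
    IsEmpire (splice M x0 P) (fun f => country (sFace M x0 P f)) m ∧
    ∀ a b : Fin n, a ≠ b → ∃ x, country (sFace M x0 P ((splice M x0 P).face x)) = a ∧
      country (sFace M x0 P ((splice M x0 P).face ((splice M x0 P).r2 x))) = b := by
  constructor
  · intro c
    refine le_trans (le_of_eq ?_) (hE c)
    refine Nat.card_congr ?_
    refine Equiv.subtypeEquiv (Equiv.ofBijective _ (sFace_bij M x0 P)) ?_
    intro a; rfl
  · intro a b hab
    obtain ⟨x, hx, hx'⟩ := hA a b hab
    exact ⟨Sum.inl x, hx, hx'⟩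

/-- the crosscap polygon -/
def polyC : Poly 4 where
  p0 := ![1, 0, 3, 2]
  p1 := ![3, 2, 1, 0]
  p2 := ![2, 3, 0, 1]
  i := 0
  o := 3
  h0 := by decide
  h1 := by decide
  h2 := by decide
  n0 := by decide
  n1 := by decide
  n2 := by decide
  cm := by decide
  n02 := by decide
  io := by decide
  pathF := by
    have h01 : Relation.EqvGen (fun a b : Fin 4 => b = ![1, 0, 3, 2] a ∨
        (b = ![3, 2, 1, 0] a ∧ a ≠ 0 ∧ a ≠ 3)) 0 1 := Relation.EqvGen.rel _ _ (by decide)
    have h12 : Relation.EqvGen (fun a b : Fin 4 => b = ![1, 0, 3, 2] a ∨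
        (b = ![3, 2, 1, 0] a ∧ a ≠ 0 ∧ a ≠ 3)) 1 2 := Relation.EqvGen.rel _ _ (by decide)
    have h23 : Relation.EqvGen (fun a b : Fin 4 => b = ![1, 0, 3, 2] a ∨
        (b = ![3, 2, 1, 0] a ∧ a ≠ 0 ∧ a ≠ 3)) 2 3 := Relation.EqvGen.rel _ _ (by decide)
    intro x
    fin_cases x
    · exact Relation.EqvGen.refl _
    · exact h01
    · exact h01.trans _ _ _ h12
    · exact (h01.trans _ _ _ h12).trans _ _ _ h23
  pathV := by
    have h02 : Relation.EqvGen (fun a b : Fin 4 => b = ![2, 3, 0, 1] a ∨
        (b = ![3, 2, 1, 0] a ∧ a ≠ 0 ∧ a ≠ 3)) 0 2 := Relation.EqvGen.rel _ _ (by decide)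
    have h21 : Relation.EqvGen (fun a b : Fin 4 => b = ![2, 3, 0, 1] a ∨
        (b = ![3, 2, 1, 0] a ∧ a ≠ 0 ∧ a ≠ 3)) 2 1 := Relation.EqvGen.rel _ _ (by decide)
    have h13 : Relation.EqvGen (fun a b : Fin 4 => b = ![2, 3, 0, 1] a ∨
        (b = ![3, 2, 1, 0] a ∧ a ≠ 0 ∧ a ≠ 3)) 1 3 := Relation.EqvGen.rel _ _ (by decide)
    intro x
    fin_cases x
    · exact Relation.EqvGen.refl _
    · exact h02.trans _ _ _ h21
    · exact h02
    · exact (h02.trans _ _ _ h21).trans _ _ _ h13

theorem polyC_E : Nat.card polyC.E = 1 := by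
  rw [Nat.card_eq_one_iff_unique]
  refine ⟨⟨?_⟩, ⟨Quot.mk _ 0⟩⟩
  have h : ∀ x : Fin 4, (Quot.mk _ x : polyC.E) = Quot.mk _ 0 := by
    have h01 : (Quot.mk _ 1 : polyC.E) = Quot.mk _ 0 := Quot.sound (Or.inl (by decide))
    have h02 : (Quot.mk _ 2 : polyC.E) = Quot.mk _ 0 := Quot.sound (Or.inr (by decide))
    have h03 : (Quot.mk _ 3 : polyC.E) = Quot.mk _ 2 := Quot.sound (Or.inl (by decide))
    intro x
    fin_cases x
    · rfl
    · exact h01
    · exact h02
    · exact h03.trans h02
  intro a b
  induction a using Quot.ind with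
  | mk x =>
    induction b using Quot.ind with
    | mk y => rw [h x, h y]

/-- the handle polygon -/
def polyH : Poly 8 where
  p0 := ![1, 0, 3, 2, 5, 4, 7, 6]
  p1 := ![7, 2, 1, 4, 3, 6, 5, 0]
  p2 := ![5, 4, 7, 6, 1, 0, 3, 2]
  i := 0
  o := 7
  h0 := by decide
  h1 := by decide
  h2 := by decide
  n0 := by decide
  n1 := by decide
  n2 := by decide
  cm := by decide
  n02 := by decide
  io := by decide
  pathF := by
    set R : Fin 8 → Fin 8 → Prop := fun a b => b = ![1, 0, 3, 2, 5, 4, 7, 6] a ∨
        (b = ![7, 2, 1, 4, 3, 6, 5, 0] a ∧ a ≠ 0 ∧ a ≠ 7) with hR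
    have h1 : Relation.EqvGen R 0 1 := Relation.EqvGen.rel _ _ (by rw [hR]; decide)
    have h2 : Relation.EqvGen R 0 2 := h1.trans _ _ _ (Relation.EqvGen.rel _ _ (by rw [hR]; decide))
    have h3 : Relation.EqvGen R 0 3 := h2.trans _ _ _ (Relation.EqvGen.rel _ _ (by rw [hR]; decide))
    have h4 : Relation.EqvGen R 0 4 := h3.trans _ _ _ (Relation.EqvGen.rel _ _ (by rw [hR]; decide))
    have h5 : Relation.EqvGen R 0 5 := h4.trans _ _ _ (Relation.EqvGen.rel _ _ (by rw [hR]; decide))
    have h6 : Relation.EqvGen R 0 6 := h5.trans _ _ _ (Relation.EqvGen.rel _ _ (by rw [hR]; decide))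
    have h7 : Relation.EqvGen R 0 7 := h6.trans _ _ _ (Relation.EqvGen.rel _ _ (by rw [hR]; decide))
    intro x
    fin_cases x
    exacts [Relation.EqvGen.refl _, h1, h2, h3, h4, h5, h6, h7]
  pathV := by
    set R : Fin 8 → Fin 8 → Prop := fun a b => b = ![5, 4, 7, 6, 1, 0, 3, 2] a ∨
        (b = ![7, 2, 1, 4, 3, 6, 5, 0] a ∧ a ≠ 0 ∧ a ≠ 7) with hR
    have h5 : Relation.EqvGen R 0 5 := Relation.EqvGen.rel _ _ (by rw [hR]; decide)
    have h6 : Relation.EqvGen R 0 6 := h5.trans _ _ _ (Relation.EqvGen.rel _ _ (by rw [hR]; decide))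
    have h3 : Relation.EqvGen R 0 3 := h6.trans _ _ _ (Relation.EqvGen.rel _ _ (by rw [hR]; decide))
    have h4 : Relation.EqvGen R 0 4 := h3.trans _ _ _ (Relation.EqvGen.rel _ _ (by rw [hR]; decide))
    have h1 : Relation.EqvGen R 0 1 := h4.trans _ _ _ (Relation.EqvGen.rel _ _ (by rw [hR]; decide))
    have h2 : Relation.EqvGen R 0 2 := h1.trans _ _ _ (Relation.EqvGen.rel _ _ (by rw [hR]; decide))
    have h7 : Relation.EqvGen R 0 7 := h2.trans _ _ _ (Relation.EqvGen.rel _ _ (by rw [hR]; decide))
    intro x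
    fin_cases x
    exacts [Relation.EqvGen.refl _, h1, h2, h3, h4, h5, h6, h7]

theorem polyH_E : Nat.card polyH.E = 2 := by
  have : Nat.card polyH.E = Nat.card (Fin 2) := by
    refine Nat.card_congr (Equiv.mk
      (Quot.lift (![0, 0, 1, 1, 0, 0, 1, 1] : Fin 8 → Fin 2) ?_)
      (![Quot.mk _ 0, Quot.mk _ 2] : Fin 2 → polyH.E) ?_ ?_)
    · have : ∀ a b : Fin 8, (b = polyH.p0 a ∨ b = polyH.p2 a) →
        (![0, 0, 1, 1, 0, 0, 1, 1] : Fin 8 → Fin 2) a = ![0, 0, 1, 1, 0, 0, 1, 1] b := by decide
      exact this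
    · intro q
      induction q using Quot.ind with
      | mk x =>
        have h1 : (Quot.mk _ 1 : polyH.E) = Quot.mk _ 0 := Quot.sound (Or.inl (by decide))
        have h5 : (Quot.mk _ 5 : polyH.E) = Quot.mk _ 0 := Quot.sound (Or.inr (by decide))
        have h4 : (Quot.mk _ 4 : polyH.E) = Quot.mk _ 5 := Quot.sound (Or.inl (by decide))
        have h3 : (Quot.mk _ 3 : polyH.E) = Quot.mk _ 2 := Quot.sound (Or.inl (by decide))
        have h7 : (Quot.mk _ 7 : polyH.E) = Quot.mk _ 2 := Quot.sound (Or.inr (by decide))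
        have h6 : (Quot.mk _ 6 : polyH.E) = Quot.mk _ 7 := Quot.sound (Or.inl (by decide))
        fin_cases x
        · rfl
        · exact h1.symm
        · rfl
        · exact h3.symm
        · exact (h4.trans h5).symm
        · exact h5.symm
        · exact (h6.trans h7).symm
        · exact h7.symm
    · intro x
      fin_cases x <;> rfl
  rw [this]; simp

theorem good_crosscap {o : Bool} {ε : ℤ} {n m : ℕ} (h : Good o ε n m) : Good false (ε - 1) n m := by
  obtain ⟨M, country, hO, hε, hE, hA⟩ := h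
  obtain ⟨x0⟩ := M.ne
  obtain ⟨h1, h2⟩ := splice_good M x0 polyC n m country hE hA
  refine ⟨splice M x0 polyC, fun f => country (sFace M x0 polyC f), ?_, ?_, h1, h2⟩
  · simp only [Bool.false_eq_true, iff_false]
    rintro ⟨c, hc⟩
    have a1 := (hc (Sum.inr 0)).1
    have a2 := (hc (Sum.inr 1)).2.1
    have a3 := (hc (Sum.inr 0)).2.2
    have e1 : (splice M x0 polyC).r0 (Sum.inr 0) = Sum.inr 1 := rfl
    have e2 : (splice M x0 polyC).r1 (Sum.inr 1) = Sum.inr 2 := by
      show spl1 M x0 polyC.p1 polyC.i polyC.o (Sum.inr 1) = _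
      rw [spl1_inr M x0 polyC (by decide) (by decide)]; rfl
    have e3 : (splice M x0 polyC).r2 (Sum.inr 0) = Sum.inr 2 := rfl
    rw [e1] at a1
    rw [e2] at a2
    rw [e3] at a3
    rw [a1] at a2
    rw [a2] at a3
    cases h : c (Sum.inr 0) <;> simp [h] at a3
  · rw [splice_euler, polyC_E, hε]; norm_num

theorem good_handle {ε : ℤ} {n m : ℕ} (h : Good true ε n m) : Good true (ε - 2) n m := by
  obtain ⟨M, country, hO, hε, hE, hA⟩ := h
  obtain ⟨x0⟩ := M.ne
  obtain ⟨h1, h2⟩ := splice_good M x0 polyH n m country hE hA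
  refine ⟨splice M x0 polyH, fun f => country (sFace M x0 polyH f), ?_, ?_, h1, h2⟩
  · simp only [iff_true]
    obtain ⟨c, hc⟩ := hO.mpr rfl
    let cp : Fin 8 → Bool := ![false, true, false, true, false, true, false, true]
    -- normalise: colour of polygon flags
    refine ⟨fun z => match z with
      | Sum.inl x => c x
      | Sum.inr p => xor (cp p) (!(c x0)), ?_⟩
    rintro (x | p)
    · refine ⟨(hc x).1, ?_, (hc x).2.2⟩
      by_cases hx : x = x0
      · subst hx
        have : (splice M x polyH).r1 (Sum.inl x) = Sum.inr polyH.i := spl1_x0 M x polyH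
        rw [this]
        show xor (cp 0) (!(c x)) = !(c x)
        simp [cp]
      · by_cases hx' : x = M.r1 x0
        · subst hx'
          have : (splice M x0 polyH).r1 (Sum.inl (M.r1 x0)) = Sum.inr polyH.o := spl1_y0 M x0 polyH
          rw [this]
          show xor (cp 7) (!(c x0)) = !(c (M.r1 x0))
          rw [(hc x0).2.1]
          simp [cp]
        · have : (splice M x0 polyH).r1 (Sum.inl x) = Sum.inl (M.r1 x) :=
            spl1_inl M x0 polyH hx hx'
          rw [this]
          exact (hc x).2.1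
    · refine ⟨?_, ?_, ?_⟩
      · have : ∀ p : Fin 8, cp (polyH.p0 p) = !(cp p) := by decide
        show xor (cp (polyH.p0 p)) (!(c x0)) = !(xor (cp p) (!(c x0)))
        rw [this]; cases cp p <;> cases c x0 <;> rfl
      · by_cases hp : p = polyH.i
        · subst hp
          have : (splice M x0 polyH).r1 (Sum.inr polyH.i) = Sum.inl x0 := spl1_i M x0 polyH
          rw [this]
          show c x0 = !(xor (cp 0) (!(c x0)))
          simp [cp]
        · by_cases hp' : p = polyH.o
          · subst hp'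
            have : (splice M x0 polyH).r1 (Sum.inr polyH.o) = Sum.inl (M.r1 x0) := spl1_o M x0 polyH
            rw [this]
            show c (M.r1 x0) = !(xor (cp 7) (!(c x0)))
            rw [(hc x0).2.1]
            simp [cp]
          · have : (splice M x0 polyH).r1 (Sum.inr p) = Sum.inr (polyH.p1 p) :=
              spl1_inr M x0 polyH hp hp'
            rw [this]
            have : ∀ p : Fin 8, cp (polyH.p1 p) = !(cp p) := by decide
            show xor (cp (polyH.p1 p)) (!(c x0)) = !(xor (cp p) (!(c x0)))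
            rw [this]; cases cp p <;> cases c x0 <;> rfl
      · have : ∀ p : Fin 8, cp (polyH.p2 p) = !(cp p) := by decide
        show xor (cp (polyH.p2 p)) (!(c x0)) = !(xor (cp p) (!(c x0)))
        rw [this]; cases cp p <;> cases c x0 <;> rfl
  · rw [splice_euler, polyH_E, hε]; norm_num

end Run7.h951
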