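import Pool.Agent.Run7.h951.Cyc
import Pool.Agent.Run7.h951.Splice

/-! From a rotation system to a cell map; merging parts. -/

namespace Run7.h951

open Equiv

variable {D : Type} [Fintype D] [DecidableEq D]

theorem merge_all {C : Type*} (α : Perm D) (κ : D → C) (T : C → Prop) :
    ∀ (k : ℕ) (σ : Perm D), cyc σ ≤ k → (∀ x, κ (σ x) = κ x) →
    ∃ σ' : Perm D, (∀ x, κ (σ' x) = κ x) ∧ (∀ x, ¬ T (κ x) → σ' x = σ x) ∧
      (∀ a b, T (κ a) → κ a = κ b → cl σ' a = cl σ' b) ∧
      cyc (α * σ) + cyc σ' ≤ cyc (α * σ') + cyc σ := by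
  classical
  intro k
  induction k with
  | zero =>
    intro σ hσ hκ
    refine ⟨σ, hκ, fun _ _ => rfl, ?_, le_rfl⟩
    intro a b _ _
    exfalso
    have : 0 < cyc σ := by
      unfold cyc
      have : Nonempty (Quot (fun x y => y = σ x)) := ⟨cl σ a⟩
      exact Nat.card_pos
    omega
  | succ k ih =>
    intro σ hσ hκ
    by_cases h : ∀ a b, T (κ a) → κ a = κ b → cl σ a = cl σ b
    · exact ⟨σ, hκ, fun _ _ => rfl, h, le_rfl⟩
    · push Not at h
      obtain ⟨a, b, hTa, hab, hne⟩ := h
      have hm := merge_cyc σ a b hne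
      obtain ⟨σ', h1, h2, h3, h4⟩ := ih (σ * swap a b) (by omega) (by
        intro x
        rw [Perm.mul_apply, hκ]
        by_cases hxa : x = a
        · subst hxa; rw [swap_apply_left, hab]
        · by_cases hxb : x = b
          · subst hxb; rw [swap_apply_right, hab]
          · rw [swap_apply_of_ne_of_ne hxa hxb])
      refine ⟨σ', h1, ?_, h3, ?_⟩
      · intro x hx
        rw [h2 x hx, Perm.mul_apply, swap_apply_of_ne_of_ne]
        · intro h; subst h; exact hx hTa
        · intro h; subst h; rw [hab] at hTa; exact hx hTa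
      · have h5 := cyc_le_swap (α * σ) a b
        rw [mul_assoc] at h5
        omega

/-- `r1` of the flag map -/
def oR1 (σ : Perm D) : D × Bool → D × Bool
  | (d, true) => (σ d, false)
  | (d, false) => (σ⁻¹ d, true)

/-- the cell map of a rotation system -/
def toCell (σ α : Perm D) (hD : Nonempty D) (hα : ∀ x, α (α x) = x) (hα' : ∀ x, α x ≠ x)
    (hc : ∀ x y, Relation.EqvGen (fun a b => b = σ a ∨ b = α a) x y) : CellMap where
  Flag := D × Bool
  fin := inferInstance
  ne := by obtain ⟨d⟩ := hD; exact ⟨(d, true)⟩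
  r0 := fun z => (z.1, !z.2)
  r1 := oR1 σ
  r2 := fun z => (α z.1, !z.2)
  r0_inv := by rintro ⟨d, b⟩; simp
  r1_inv := by rintro ⟨d, b⟩; cases b <;> simp [oR1]
  r2_inv := by rintro ⟨d, b⟩; simp [hα]
  r0_ne := by rintro ⟨d, b⟩; simp
  r1_ne := by rintro ⟨d, b⟩; cases b <;> simp [oR1]
  r2_ne := by rintro ⟨d, b⟩; simp
  comm := by rintro ⟨d, b⟩; simp
  r02_ne := by rintro ⟨d, b⟩; simp [hα']
  conn := by
    set R : D × Bool → D × Bool → Prop :=
      fun a b => b = (a.1, !a.2) ∨ b = oR1 σ a ∨ b = (α a.1, !a.2) with hR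
    have h1 : ∀ d b, Relation.EqvGen R (d, true) (d, b) := by
      intro d b
      cases b
      · exact Relation.EqvGen.rel _ _ (Or.inl rfl)
      · exact Relation.EqvGen.refl _
    have h2 : ∀ x y, Relation.EqvGen R (x, true) (y, true) := by
      intro x y
      have := hc x y
      induction this with
      | rel a b h =>
        rcases h with h | h
        · subst h
          exact (Relation.EqvGen.rel _ _ (Or.inr (Or.inl rfl)) :
            Relation.EqvGen R (a, true) (σ a, false)).trans _ _ _ (h1 _ _).symm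
        · subst h
          exact (Relation.EqvGen.rel _ _ (Or.inr (Or.inr rfl)) :
            Relation.EqvGen R (a, true) (α a, false)).trans _ _ _ (h1 _ _).symm
      | refl a => exact Relation.EqvGen.refl _
      | symm a b _ ih => exact ih.symm
      | trans a b c _ _ ih1 ih2 => exact ih1.trans _ _ _ ih2
    rintro ⟨x, b⟩ ⟨y, c⟩
    exact ((h1 x b).symm.trans _ _ _ (h2 x y)).trans _ _ _ (h1 y c)

section
variable (σ α : Perm D) (hD : Nonempty D) (hα : ∀ x, α (α x) = x) (hα' : ∀ x, α x ≠ x)
    (hc : ∀ x y, Relation.EqvGen (fun a b => b = σ a ∨ b = α a) x y)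

/-- faces correspond to cycles of `σ` -/
def faceEquiv : (toCell σ α hD hα hα' hc).Face ≃ Quot (fun a b => b = σ a) where
  toFun := Quot.lift (fun z : D × Bool => cl σ z.1) (by
    rintro ⟨d, b⟩ z (h | h)
    · subst h; rfl
    · change z = oR1 σ (d, b) at h
      subst h
      cases b
      · exact (cl_symm_apply σ d).symm
      · exact (cl_apply σ d).symm)
  invFun := Quot.lift (fun d => Quot.mk _ (d, true)) (by
    intro a b h
    subst h
    have h1 : (Quot.mk _ (a, true) : (toCell σ α hD hα hα' hc).Face) = Quot.mk _ (σ a, false) :=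
      Quot.sound (Or.inr rfl)
    have h2 : (Quot.mk _ (σ a, false) : (toCell σ α hD hα hα' hc).Face) = Quot.mk _ (σ a, true) :=
      Quot.sound (Or.inl rfl)
    exact h1.trans h2)
  left_inv := by
    intro q
    induction q using Quot.ind with
    | mk z =>
      obtain ⟨d, b⟩ := z
      cases b
      · exact Quot.sound (Or.inl rfl)
      · rfl
  right_inv := by
    intro q
    induction q using Quot.ind with
    | mk z => rfl

omit [DecidableEq D] in
theorem card_vertex : Nat.card (toCell σ α hD hα hα' hc).Vertex = cyc (α * σ) := by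
  unfold cyc
  refine Nat.card_congr (Equiv.mk
    (Quot.lift (fun z : D × Bool => match z with
      | (d, true) => cl (α * σ) d
      | (d, false) => cl (α * σ) (σ⁻¹ d)) ?_)
    (Quot.lift (fun d => Quot.mk _ (d, true)) ?_) ?_ ?_)
  · rintro ⟨d, b⟩ z (h | h)
    · change z = oR1 σ (d, b) at h
      subst h
      cases b
      · rfl
      · show cl (α * σ) d = cl (α * σ) (σ⁻¹ (σ d))
        simp
    · subst h
      cases b
      · show cl (α * σ) (σ⁻¹ d) = cl (α * σ) (α d)
        rw [← cl_apply (α * σ) (σ⁻¹ d)]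
        simp
      · show cl (α * σ) d = cl (α * σ) (σ⁻¹ (α d))
        rw [← cl_apply (α * σ) (σ⁻¹ (α d))]
        simp [hα]
  · intro a b h
    subst h
    have h1 : (Quot.mk _ (a, true) : (toCell σ α hD hα hα' hc).Vertex) = Quot.mk _ (σ a, false) :=
      Quot.sound (Or.inl rfl)
    have h2 : (Quot.mk _ (σ a, false) : (toCell σ α hD hα hα' hc).Vertex) =
        Quot.mk _ (α (σ a), true) :=
      Quot.sound (Or.inr rfl)
    exact h1.trans h2
  · intro q
    induction q using Quot.ind with
    | mk z =>
      obtain ⟨d, b⟩ := z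
      cases b
      · have h1 : (Quot.mk _ (σ⁻¹ d, true) : (toCell σ α hD hα hα' hc).Vertex) =
            Quot.mk _ (σ (σ⁻¹ d), false) := Quot.sound (Or.inl rfl)
        have h2 : σ (σ⁻¹ d) = d := by simp
        rw [h2] at h1
        exact h1
      · rfl
  · intro q
    induction q using Quot.ind with
    | mk z => rfl

omit [DecidableEq D] in
theorem card_edge' : Nat.card (toCell σ α hD hα hα' hc).Edge = cyc α := by
  unfold cyc
  refine Nat.card_congr (Equiv.mk
    (Quot.lift (fun z : D × Bool => cl α z.1) ?_)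
    (Quot.lift (fun d => Quot.mk _ (d, true)) ?_) ?_ ?_)
  · rintro ⟨d, b⟩ z (h | h)
    · subst h; rfl
    · subst h; exact (cl_apply α d).symm
  · intro a b h
    subst h
    have h1 : (Quot.mk _ (a, true) : (toCell σ α hD hα hα' hc).Edge) = Quot.mk _ (α a, false) :=
      Quot.sound (Or.inr rfl)
    have h2 : (Quot.mk _ (α a, false) : (toCell σ α hD hα hα' hc).Edge) = Quot.mk _ (α a, true) :=
      Quot.sound (Or.inl rfl)
    exact h1.trans h2
  · intro q
    induction q using Quot.ind with
    | mk z =>
      obtain ⟨d, b⟩ := z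
      cases b
      · exact Quot.sound (Or.inl rfl)
      · rfl
  · intro q
    induction q using Quot.ind with
    | mk z => rfl

omit [DecidableEq D] in
theorem toCell_orientable : (toCell σ α hD hα hα' hc).Orientable := by
  refine ⟨fun z : D × Bool => z.2, ?_⟩
  rintro ⟨d, b⟩
  refine ⟨rfl, ?_, rfl⟩
  cases b <;> rfl

end

omit [DecidableEq D] in
theorem cyc_invol [DecidableEq D] (α : Perm D) (hα : ∀ x, α (α x) = x) (hα' : ∀ x, α x ≠ x) :
    2 * cyc α = Fintype.card D := by
  classical
  have : Fintype (Quot (fun x y => y = α x)) := Fintype.ofFinite _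
  unfold cyc
  rw [Nat.card_eq_fintype_card, ← Finset.card_univ (α := D),
    Finset.card_eq_sum_card_fiberwise (f := fun x => cl α x) (t := Finset.univ) (by
      intro x _; exact Finset.mem_coe.mpr (Finset.mem_univ _))]
  rw [Finset.sum_congr rfl (g := fun _ => 2)]
  · rw [Finset.sum_const, Finset.card_univ, smul_eq_mul, mul_comm]
  · intro q _
    induction q using Quot.ind with
    | mk x =>
      have : Finset.univ.filter (fun y => cl α y = Quot.mk _ x) = {x, α x} := by
        ext y
        rw [Finset.mem_filter, Finset.mem_insert, Finset.mem_singleton]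
        constructor
        · rintro ⟨_, h⟩
          let F : Quot (fun x y => y = α x) → Finset D := Quot.lift (fun z => {z, α z}) (by
            intro a b h; subst h; rw [hα]; exact Finset.pair_comm _ _)
          have h1 : F (cl α y) = F (cl α x) := congrArg F h
          change ({y, α y} : Finset D) = {x, α x} at h1
          have : y ∈ ({x, α x} : Finset D) := by rw [← h1]; simp
          simpa using this
        · rintro (h | h)
          · subst h; exact ⟨Finset.mem_univ _, rfl⟩
          · subst h; exact ⟨Finset.mem_univ _, cl_apply α x⟩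
      rw [this, Finset.card_pair]
      exact (hα' x).symm

theorem even_euler (σ α : Perm D) (hα : ∀ x, α (α x) = x) (hα' : ∀ x, α x ≠ x) :
    Even (cyc (α * σ) + cyc α + cyc σ) := by
  have h1 := cyc_swap_parity σ
  have h2 := cyc_swap_parity α
  have h3 := cyc_swap_parity (α * σ)
  have h4 := cyc_invol α hα hα'
  have h5 : (-1 : ℤˣ) ^ Fintype.card D = 1 := by
    rw [← h4, pow_mul]; simp
  rw [h5, one_mul] at h1 h2 h3
  rw [Perm.sign_mul] at h3
  have h6 : (-1 : ℤˣ) ^ (cyc (α * σ) + cyc α + cyc σ) = 1 := by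
    rw [pow_add, pow_add, h1, h2, h3]
    have ha : Perm.sign α * Perm.sign α = 1 := Int.units_mul_self _
    have hs : Perm.sign σ * Perm.sign σ = 1 := Int.units_mul_self _
    calc Perm.sign α * Perm.sign σ * Perm.sign α * Perm.sign σ
        = (Perm.sign α * Perm.sign α) * (Perm.sign σ * Perm.sign σ) := by
          rw [mul_mul_mul_comm, ← mul_assoc]
      _ = 1 := by rw [ha, hs, one_mul]
  rcases Nat.even_or_odd (cyc (α * σ) + cyc α + cyc σ) with h | h
  · exact h
  · exfalso
    rw [h.neg_one_pow] at h6
    exact absurd h6 (by decide)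

/-- a rotation system with labelled countries gives a good map -/
theorem good_of_rot (σ α : Perm D) (hD : Nonempty D) (hα : ∀ x, α (α x) = x)
    (hα' : ∀ x, α x ≠ x) (hc : ∀ x y, Relation.EqvGen (fun a b => b = σ a ∨ b = α a) x y)
    (n m : ℕ) (κ : D → Fin n) (hκ : ∀ x, κ (σ x) = κ x)
    (hp : ∀ c, Nat.card {q : Quot (fun a b => b = σ a) // ∃ x, κ x = c ∧ q = cl σ x} ≤ m)
    (hA : ∀ a b : Fin n, a ≠ b → ∃ x, κ x = a ∧ κ (α x) = b) :
    Good true ((cyc (α * σ) : ℤ) - cyc α + cyc σ) n m := by
  set M := toCell σ α hD hα hα' hc with hM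
  let country : M.Face → Fin n := Quot.lift (fun z : D × Bool => κ z.1) (by
    rintro ⟨d, b⟩ z (h | h)
    · subst h; rfl
    · change z = oR1 σ (d, b) at h
      subst h
      cases b
      · show κ d = κ (σ⁻¹ d)
        have := hκ (σ⁻¹ d)
        simpa using this
      · exact (hκ d).symm)
  refine ⟨M, country, ?_, ?_, ?_, ?_⟩
  · simp only [iff_true]; exact toCell_orientable σ α hD hα hα' hc
  · unfold CellMap.euler
    rw [hM, card_vertex, card_edge', Nat.card_congr (faceEquiv σ α hD hα hα' hc)]
    rfl
  · intro c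
    refine le_trans (le_of_eq ?_) (hp c)
    refine Nat.card_congr (Equiv.subtypeEquiv (faceEquiv σ α hD hα hα' hc) ?_)
    intro q
    induction q using Quot.ind with
    | mk z =>
      obtain ⟨d, b⟩ := z
      constructor
      · intro h
        exact ⟨d, h, rfl⟩
      · rintro ⟨x, hx, hq⟩
        show κ d = c
        rw [← hx]
        let F : Quot (fun x y => y = σ x) → Fin n := Quot.lift κ (by
          intro a b h; subst h; exact (hκ a).symm)
        have h1 : F (cl σ d) = F (cl σ x) := congrArg F hq
        exact h1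
  · intro a b hab
    obtain ⟨x, hx, hx'⟩ := hA a b hab
    exact ⟨(x, true), hx, hx'⟩

end Run7.h951
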