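import Pool.Agent.Run7.h951.Orient

/-! The map derived from a partition of `ZMod N` into zero-sum triples and vortices. -/

namespace Run7.h951

open Equiv

/-- the data of a current graph over `ZMod N` -/
structure Cur (N : ℕ) (Lab : Type) where
  ν : Perm Lab
  τ : Perm Lab
  val : Lab → ZMod N
  hν : ∀ l, ν (ν l) = l
  hν' : ∀ l, ν l ≠ l
  hτ : ∀ l, τ (τ (τ l)) = l
  hval : ∀ l, val (ν l) = - val l
  hsum : ∀ l, τ l ≠ l → val l + val (τ l) + val (τ (τ l)) = 0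
  hsurj : ∀ g : ZMod N, g ≠ 0 → ∃ l, val l = g

namespace Cur

variable {N : ℕ} [NeZero N] {Lab : Type} [Fintype Lab] [DecidableEq Lab] (c : Cur N Lab)

/-- the vortices -/
abbrev W : Type := {v : Lab // c.τ v = v}

/-- the rotation -/
def π : Perm Lab := c.τ * c.ν

/-- the darts -/
abbrev D : Type := (ZMod N × Lab) ⊕ ((ZMod N × c.W) ⊕ ((ZMod N × c.W) ⊕ {p : c.W × c.W // p.1 ≠ p.2}))

abbrev base (x : ZMod N) (l : Lab) : c.D := Sum.inl (x, l)
abbrev out (x : ZMod N) (w : c.W) : c.D := Sum.inr (Sum.inl (x, w))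
abbrev inn (x : ZMod N) (w : c.W) : c.D := Sum.inr (Sum.inr (Sum.inl (x, w)))
abbrev tie (p : {p : c.W × c.W // p.1 ≠ p.2}) : c.D := Sum.inr (Sum.inr (Sum.inr p))

/-- rotation of darts -/
def s0 : c.D → c.D
  | Sum.inl (x, l) => if h : c.τ (c.ν l) = c.ν l then c.out x ⟨c.ν l, h⟩ else c.base x (c.τ (c.ν l))
  | Sum.inr (Sum.inl (x, w)) => c.base x w.1
  | Sum.inr (Sum.inr (Sum.inl (x, w))) => c.inn (x - c.val w.1) w
  | Sum.inr (Sum.inr (Sum.inr p)) => c.tie p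

/-- its inverse -/
def s1 : c.D → c.D
  | Sum.inl (x, l) => if h : c.τ l = l then c.out x ⟨l, h⟩ else c.base x (c.ν (c.τ (c.τ l)))
  | Sum.inr (Sum.inl (x, w)) => c.base x (c.ν w.1)
  | Sum.inr (Sum.inr (Sum.inl (x, w))) => c.inn (x + c.val w.1) w
  | Sum.inr (Sum.inr (Sum.inr p)) => c.tie p

omit [NeZero N] [Fintype Lab] in
theorem s1_s0 (d : c.D) : c.s1 (c.s0 d) = d := by
  rcases d with ⟨x, l⟩ | ⟨x, w⟩ | ⟨x, w⟩ | p
  · by_cases h : c.τ (c.ν l) = c.ν l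
    · simp [s0, s1, h, c.hν]
    · have h2 : c.τ (c.τ (c.ν l)) ≠ c.τ (c.ν l) := fun hh => h (c.τ.injective hh)
      simp [s0, s1, h, h2, c.hν, c.hτ]
  · simp [s0, s1, w.2]
  · simp [s0, s1]
  · rfl

omit [NeZero N] [Fintype Lab] in
theorem s0_s1 (d : c.D) : c.s0 (c.s1 d) = d := by
  rcases d with ⟨x, l⟩ | ⟨x, w⟩ | ⟨x, w⟩ | p
  · by_cases h : c.τ l = l
    · simp [s0, s1, h]
    · have h2 : ¬ (l = c.τ (c.τ l)) := by
        intro hh
        apply h
        have := congrArg c.τ hh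
        rwa [c.hτ] at this
      simp [s0, s1, h, c.hν, c.hτ, h2]
  · simp [s0, s1, w.2, c.hν]
  · simp [s0, s1]
  · rfl

/-- rotation as a permutation -/
def sg : Perm c.D := ⟨c.s0, c.s1, c.s1_s0, c.s0_s1⟩

/-- reversal of darts -/
def a0 : c.D → c.D
  | Sum.inl (x, l) => c.base (x + c.val l) (c.ν l)
  | Sum.inr (Sum.inl (x, w)) => c.inn x w
  | Sum.inr (Sum.inr (Sum.inl (x, w))) => c.out x w
  | Sum.inr (Sum.inr (Sum.inr p)) => c.tie ⟨(p.1.2, p.1.1), fun h => p.2 h.symm⟩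

omit [NeZero N] [Fintype Lab] [DecidableEq Lab] in
theorem a0_a0 (d : c.D) : c.a0 (c.a0 d) = d := by
  rcases d with ⟨x, l⟩ | ⟨x, w⟩ | ⟨x, w⟩ | p
  · simp [a0, c.hν, c.hval]
  · rfl
  · rfl
  · rfl

omit [NeZero N] [Fintype Lab] [DecidableEq Lab] in
theorem a0_ne (d : c.D) : c.a0 d ≠ d := by
  rcases d with ⟨x, l⟩ | ⟨x, w⟩ | ⟨x, w⟩ | p
  · intro h
    have := Sum.inl.inj h
    exact c.hν' l (congrArg Prod.snd this)
  · intro h; simp [a0] at h
  · intro h; simp [a0] at h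
  · intro h
    simp only [a0, Sum.inr.injEq] at h
    have h1 := congrArg (fun q => q.1.1) h
    exact p.2 h1.symm

/-- reversal as a permutation -/
def al : Perm c.D := ⟨c.a0, c.a0, c.a0_a0, c.a0_a0⟩

/-- the countries -/
abbrev C : Type := ZMod N ⊕ c.W

/-- the country of a dart -/
def ka : c.D → c.C
  | Sum.inl (x, _) => Sum.inl x
  | Sum.inr (Sum.inl (x, _)) => Sum.inl x
  | Sum.inr (Sum.inr (Sum.inl (_, w))) => Sum.inr w
  | Sum.inr (Sum.inr (Sum.inr p)) => Sum.inr p.1.1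

omit [NeZero N] [Fintype Lab] in
theorem ka_sg (d : c.D) : c.ka (c.sg d) = c.ka d := by
  rcases d with ⟨x, l⟩ | ⟨x, w⟩ | ⟨x, w⟩ | p
  · show c.ka (c.s0 (Sum.inl (x, l))) = _
    by_cases h : c.τ (c.ν l) = c.ν l
    · simp [s0, h, ka]
    · simp [s0, h, ka]
  · rfl
  · rfl
  · rfl

/-- weights of darts -/
def wt : c.D → ℕ
  | Sum.inl _ => 2
  | Sum.inr (Sum.inl _) => 2
  | Sum.inr (Sum.inr (Sum.inl _)) => 2
  | Sum.inr (Sum.inr (Sum.inr _)) => 3

omit [NeZero N] [Fintype Lab] in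
theorem psi3_base (x : ZMod N) (l : Lab) (h : c.τ (c.ν l) ≠ c.ν l) :
    c.a0 (c.s0 (c.base x l)) = c.base (x + c.val (c.τ (c.ν l))) (c.ν (c.τ (c.ν l))) := by
  simp [s0, a0, h]

omit [NeZero N] [Fintype Lab] in
theorem psi3 (d : c.D) (hd : ∀ p, d ≠ c.tie p) :
    c.a0 (c.s0 (c.a0 (c.s0 (c.a0 (c.s0 d))))) = d := by
  have hout : ∀ x w, c.a0 (c.s0 (c.out x w)) = c.base (x + c.val w.1) (c.ν w.1) := by
    intro x w; rfl
  have hin : ∀ x w, c.a0 (c.s0 (c.inn x w)) = c.out (x - c.val w.1) w := by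
    intro x w; rfl
  have hb : ∀ x (w : c.W), c.a0 (c.s0 (c.base x (c.ν w.1))) = c.inn x w := by
    intro x w
    have : c.τ (c.ν (c.ν w.1)) = c.ν (c.ν w.1) := by rw [c.hν, w.2]
    simp [s0, a0, c.hν, w.2]
  rcases d with ⟨x, l⟩ | ⟨x, w⟩ | ⟨x, w⟩ | p
  · by_cases h : c.τ (c.ν l) = c.ν l
    · have hl : l = c.ν (⟨c.ν l, h⟩ : c.W).1 := (c.hν l).symm
      change c.a0 (c.s0 (c.a0 (c.s0 (c.a0 (c.s0 (c.base x l)))))) = c.base x l
      rw [hl, hb, hin, hout]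
      simp
    · change c.a0 (c.s0 (c.a0 (c.s0 (c.a0 (c.s0 (c.base x l)))))) = c.base x l
      have h2 : c.τ (c.τ (c.ν l)) ≠ c.τ (c.ν l) := fun hh => h (c.τ.injective hh)
      have h3 : c.τ (c.τ (c.τ (c.ν l))) ≠ c.τ (c.τ (c.ν l)) := fun hh => h2 (c.τ.injective hh)
      rw [psi3_base c x l h, psi3_base, psi3_base]
      · simp only [c.hν, c.hτ, Sum.inl.injEq, Prod.mk.injEq, and_true]
        have := c.hsum _ h
        linear_combination this
      · simpa [c.hν] using h3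
      · simpa [c.hν] using h2
  · change c.a0 (c.s0 (c.a0 (c.s0 (c.a0 (c.s0 (c.out x w)))))) = c.out x w
    rw [hout, hb, hin]; simp
  · change c.a0 (c.s0 (c.a0 (c.s0 (c.a0 (c.s0 (c.inn x w)))))) = c.inn x w
    rw [hin, hout, hb]; simp
  · exact absurd rfl (hd p)

/-- number of orbits of a translation -/
noncomputable def tc {N : ℕ} (v : ZMod N) : ℕ := Nat.card (Quot (fun a b : ZMod N => b = a - v))

/-- the country `ka` lies in the merged part -/
def T : c.C → Prop := fun e => ∃ w, e = Sum.inr w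

/-- invariant of faces -/
def fI : c.D → (ZMod N × Quot (fun a b => b = c.π a)) ⊕ c.W
  | Sum.inl (x, l) => Sum.inl (x, cl c.π l)
  | Sum.inr (Sum.inl (x, w)) => Sum.inl (x, cl c.π w.1)
  | Sum.inr (Sum.inr (Sum.inl (_, w))) => Sum.inr w
  | Sum.inr (Sum.inr (Sum.inr p)) => Sum.inr p.1.1

theorem fI_of_ka (d : c.D) (w : c.W) (h : c.ka d = Sum.inr w) : c.fI d = Sum.inr w := by
  rcases d with ⟨x, l⟩ | ⟨x, w⟩ | ⟨x, w⟩ | p
  · simp [ka] at h
  · simp [ka] at h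
  · simpa [ka, fI] using h
  · simpa [ka, fI] using h

theorem cl_nu_fixed (l : Lab) (h : c.τ (c.ν l) = c.ν l) : cl c.π (c.ν l) = cl c.π l := by
  have : c.π l = c.ν l := h
  rw [← this, cl_apply]

theorem low (σ' : Perm c.D) (h1 : ∀ x, c.ka (σ' x) = c.ka x)
    (h2 : ∀ x, ¬ c.T (c.ka x) → σ' x = c.sg x) :
    N * cyc c.π + Fintype.card c.W ≤ cyc σ' := by
  classical
  have hcard : N * cyc c.π + Fintype.card c.W =
      Nat.card ((ZMod N × Quot (fun a b => b = c.π a)) ⊕ c.W) := by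
    rw [Nat.card_sum, Nat.card_prod, Nat.card_zmod, Nat.card_eq_fintype_card (α := c.W)]
    rfl
  rw [hcard]
  unfold cyc
  have hinv : ∀ d, c.fI (σ' d) = c.fI d := by
    intro d
    rcases d with ⟨x, l⟩ | ⟨x, w⟩ | ⟨x, w⟩ | p
    · rw [h2 _ (by rintro ⟨w, hw⟩; simp [ka] at hw)]
      show c.fI (c.s0 (Sum.inl (x, l))) = _
      by_cases h : c.τ (c.ν l) = c.ν l
      · simp only [s0, h, dite_true, fI]
        rw [c.cl_nu_fixed l h]
      · simp only [s0, h, dite_false, fI]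
        have : cl c.π (c.τ (c.ν l)) = cl c.π l := cl_apply c.π l
        rw [this]
    · rw [h2 _ (by rintro ⟨w, hw⟩; simp [ka] at hw)]
      rfl
    · rw [c.fI_of_ka _ w (by rw [h1]; rfl)]
      rfl
    · rw [c.fI_of_ka _ p.1.1 (by rw [h1]; rfl)]
      rfl
  refine Nat.card_le_card_of_surjective (Quot.lift c.fI (by
    intro a b h; subst h; exact (hinv a).symm)) ?_
  rintro (⟨x, q⟩ | w)
  · induction q using Quot.ind with
    | mk l => exact ⟨Quot.mk _ (c.base x l), rfl⟩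
  · exact ⟨Quot.mk _ (c.inn 0 w), rfl⟩

theorem cl_base_pi (σ' : Perm c.D) (h2 : ∀ x, ¬ c.T (c.ka x) → σ' x = c.sg x)
    (x : ZMod N) (l : Lab) : cl σ' (c.base x (c.π l)) = cl σ' (c.base x l) := by
  have h3 : σ' (c.base x l) = c.s0 (c.base x l) :=
    h2 _ (by rintro ⟨w, hw⟩; simp [ka] at hw)
  by_cases h : c.τ (c.ν l) = c.ν l
  · have h4 : σ' (c.out x ⟨c.ν l, h⟩) = c.base x (c.ν l) :=
      h2 _ (by rintro ⟨w, hw⟩; simp [ka] at hw)
    have h5 : c.s0 (c.base x l) = c.out x ⟨c.ν l, h⟩ := by simp [s0, h]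
    have h6 : c.π l = c.ν l := h
    rw [h6, ← h4, cl_apply, ← h5, ← h3, cl_apply]
  · have h5 : c.s0 (c.base x l) = c.base x (c.τ (c.ν l)) := by simp [s0, h]
    have h6 : c.π l = c.τ (c.ν l) := rfl
    rw [h6, ← h5, ← h3, cl_apply]

theorem cl_out (σ' : Perm c.D) (h2 : ∀ x, ¬ c.T (c.ka x) → σ' x = c.sg x)
    (x : ZMod N) (w : c.W) : cl σ' (c.out x w) = cl σ' (c.base x w.1) := by
  have h4 : σ' (c.out x w) = c.base x w.1 :=
    h2 _ (by rintro ⟨w, hw⟩; simp [ka] at hw)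
  rw [← h4, cl_apply]

theorem up : cyc c.sg ≤ N * cyc c.π + ∑ w : c.W, tc (c.val w.1) +
    Fintype.card {p : c.W × c.W // p.1 ≠ p.2} := by
  classical
  have hfin : ∀ w : c.W, Finite (Quot (fun a b : ZMod N => b = a - c.val w.1)) := fun w =>
    Finite.of_surjective (Quot.mk _) Quot.mk_surjective
  have hcard : N * cyc c.π + ∑ w : c.W, tc (c.val w.1) +
      Fintype.card {p : c.W × c.W // p.1 ≠ p.2} =
      Nat.card (((ZMod N × Quot (fun a b => b = c.π a)) ⊕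
        (Σ w : c.W, Quot (fun a b : ZMod N => b = a - c.val w.1))) ⊕
        {p : c.W × c.W // p.1 ≠ p.2}) := by
    rw [Nat.card_sum, Nat.card_sum, Nat.card_prod, Nat.card_zmod, Nat.card_sigma,
      Nat.card_eq_fintype_card (α := {p : c.W × c.W // p.1 ≠ p.2})]
    rfl
  rw [hcard]
  unfold cyc
  refine Nat.card_le_card_of_surjective (fun e => match e with
    | Sum.inl (Sum.inl (x, q)) => Quot.lift (fun l => cl c.sg (c.base x l)) (by
        intro a b h; subst h; exact (c.cl_base_pi c.sg (fun _ _ => rfl) x a).symm) q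
    | Sum.inl (Sum.inr ⟨w, q⟩) => Quot.lift (fun y => cl c.sg (c.inn y w)) (by
        intro a b h; subst h
        exact (cl_apply c.sg (c.inn a w)).symm) q
    | Sum.inr p => cl c.sg (c.tie p)) ?_
  intro q
  induction q using Quot.ind with
  | mk d =>
    rcases d with ⟨x, l⟩ | ⟨x, w⟩ | ⟨x, w⟩ | p
    · exact ⟨Sum.inl (Sum.inl (x, Quot.mk _ l)), rfl⟩
    · exact ⟨Sum.inl (Sum.inl (x, Quot.mk _ w.1)), (c.cl_out c.sg (fun _ _ => rfl) x w).symm⟩
    · exact ⟨Sum.inl (Sum.inr ⟨w, Quot.mk _ x⟩), rfl⟩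
    · exact ⟨Sum.inr p, rfl⟩

theorem parts (σ' : Perm c.D) (h2 : ∀ x, ¬ c.T (c.ka x) → σ' x = c.sg x)
    (h3 : ∀ a b, c.T (c.ka a) → c.ka a = c.ka b → cl σ' a = cl σ' b)
    (hpos : 1 ≤ cyc c.π) (e : c.C) :
    Nat.card {q : Quot (fun a b => b = σ' a) // ∃ x, c.ka x = e ∧ q = cl σ' x} ≤ cyc c.π := by
  classical
  rcases e with x | w
  · unfold cyc
    refine Nat.card_le_card_of_surjective (Quot.lift (fun l => ⟨cl σ' (c.base x l), c.base x l, rfl, rfl⟩) (by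
      intro a b h; subst h
      exact Subtype.ext (c.cl_base_pi σ' h2 x a).symm)) ?_
    rintro ⟨q, d, hd, rfl⟩
    rcases d with ⟨y, l⟩ | ⟨y, w⟩ | ⟨y, w⟩ | p
    · have : y = x := by simpa [ka] using hd
      subst this
      exact ⟨Quot.mk _ l, rfl⟩
    · have : y = x := by simpa [ka] using hd
      subst this
      exact ⟨Quot.mk _ w.1, Subtype.ext (c.cl_out σ' h2 y w).symm⟩
    · simp [ka] at hd
    · simp [ka] at hd
  · refine le_trans ?_ hpos
    have : Subsingleton {q : Quot (fun a b => b = σ' a) // ∃ x, c.ka x = Sum.inr w ∧ q = cl σ' x} := by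
      constructor
      rintro ⟨q, d, hd, rfl⟩ ⟨q', d', hd', rfl⟩
      exact Subtype.ext (h3 d d' ⟨w, hd⟩ (hd.trans hd'.symm))
    exact Finite.card_le_one_iff_subsingleton.mpr this

end Cur

end Run7.h951
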