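import Pool.Agent.Run7.h951.Volt

/-! Connectivity and Euler characteristic of the derived map. -/

namespace Run7.h951

open Equiv

namespace Cur

variable {N : ℕ} [NeZero N] {Lab : Type} [Fintype Lab] [DecidableEq Lab] (c : Cur N Lab)

theorem conn (σ' : Perm c.D) (h2 : ∀ x, ¬ c.T (c.ka x) → σ' x = c.sg x)
    (h3 : ∀ a b, c.T (c.ka a) → c.ka a = c.ka b → cl σ' a = cl σ' b)
    (hc : ∀ l, ∃ v : c.W, Relation.EqvGen (fun a b => b = c.π a ∨ b = c.ν a) l v.1)
    (w0 : c.W) (x y : c.D) :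
    Relation.EqvGen (fun a b => b = σ' a ∨ b = c.al a) x y := by
  set R : c.D → c.D → Prop := fun a b => b = σ' a ∨ b = c.al a with hR
  have hcl : ∀ a b, cl σ' a = cl σ' b → Relation.EqvGen R a b := by
    intro a b h
    have h' := Quot.eqvGen_exact h
    induction h' with
    | rel a b hr => exact Relation.EqvGen.rel _ _ (Or.inl hr)
    | refl a => exact Relation.EqvGen.refl _
    | symm a b hab ih => exact (ih (Quot.eqvGen_sound hab)).symm
    | trans a b c hab hbc ih1 ih2 =>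
      exact (ih1 (Quot.eqvGen_sound hab)).trans _ _ _ (ih2 (Quot.eqvGen_sound hbc))
  have hal : ∀ a, Relation.EqvGen R a (c.al a) := fun a => Relation.EqvGen.rel _ _ (Or.inr rfl)
  have hstep : ∀ l l', Relation.EqvGen (fun a b => b = c.π a ∨ b = c.ν a) l l' →
      (∀ x, ∃ x', Relation.EqvGen R (c.base x l) (c.base x' l')) ∧
      (∀ x', ∃ x, Relation.EqvGen R (c.base x l) (c.base x' l')) := by
    intro l l' h
    induction h with
    | rel l l' h =>
      rcases h with h | h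
      · subst h
        have key : ∀ x, Relation.EqvGen R (c.base x l) (c.base x (c.π l)) := fun x =>
          hcl _ _ (c.cl_base_pi σ' h2 x l).symm
        exact ⟨fun x => ⟨x, key x⟩, fun x => ⟨x, key x⟩⟩
      · subst h
        refine ⟨fun x => ⟨x + c.val l, hal (c.base x l)⟩, fun x' => ⟨x' - c.val l, ?_⟩⟩
        have := hal (c.base (x' - c.val l) l)
        have e : c.al (c.base (x' - c.val l) l) = c.base x' (c.ν l) := by
          show c.base (x' - c.val l + c.val l) (c.ν l) = _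
          rw [sub_add_cancel]
        rwa [e] at this
    | refl l => exact ⟨fun x => ⟨x, Relation.EqvGen.refl _⟩, fun x => ⟨x, Relation.EqvGen.refl _⟩⟩
    | symm l l' _ ih =>
      refine ⟨fun x => ?_, fun x => ?_⟩
      · obtain ⟨x', h⟩ := ih.2 x; exact ⟨x', h.symm⟩
      · obtain ⟨x', h⟩ := ih.1 x; exact ⟨x', h.symm⟩
    | trans l l' l'' _ _ ih1 ih2 =>
      refine ⟨fun x => ?_, fun x => ?_⟩
      · obtain ⟨x', h⟩ := ih1.1 x
        obtain ⟨x'', h'⟩ := ih2.1 x'
        exact ⟨x'', h.trans _ _ _ h'⟩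
      · obtain ⟨x', h⟩ := ih2.2 x
        obtain ⟨x'', h'⟩ := ih1.2 x'
        exact ⟨x'', h'.trans _ _ _ h⟩
  have hinn : ∀ w x, Relation.EqvGen R (c.inn x w) (c.inn 0 w) := fun w x =>
    hcl _ _ (h3 _ _ ⟨w, rfl⟩ rfl)
  have hto : ∀ d : c.D, ∃ w, Relation.EqvGen R d (c.inn 0 w) := by
    intro d
    rcases d with ⟨x, l⟩ | ⟨x, w⟩ | ⟨x, w⟩ | p
    · obtain ⟨v, hv⟩ := hc l
      obtain ⟨x', hx'⟩ := (hstep _ _ hv).1 x
      refine ⟨v, ?_⟩
      refine hx'.trans _ _ _ ?_
      refine (hcl _ _ (c.cl_out σ' h2 x' v).symm).trans _ _ _ ?_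
      exact (hal (c.out x' v)).trans _ _ _ (hinn v x')
    · exact ⟨w, (hal (c.out x w)).trans _ _ _ (hinn w x)⟩
    · exact ⟨w, hinn w x⟩
    · exact ⟨p.1.1, hcl _ _ (h3 _ _ ⟨p.1.1, rfl⟩ rfl)⟩
  have hww : ∀ w w', Relation.EqvGen R (c.inn 0 w) (c.inn 0 w') := by
    intro w w'
    by_cases h : w = w'
    · subst h; exact Relation.EqvGen.refl _
    · have h4 : Relation.EqvGen R (c.inn 0 w) (c.tie ⟨(w, w'), h⟩) := hcl _ _ (h3 _ _ ⟨w, rfl⟩ rfl)
      have h5 : Relation.EqvGen R (c.tie ⟨(w, w'), h⟩) (c.tie ⟨(w', w), fun h' => h h'.symm⟩) :=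
        hal (c.tie ⟨(w, w'), h⟩)
      have h6 : Relation.EqvGen R (c.tie ⟨(w', w), fun h' => h h'.symm⟩) (c.inn 0 w') :=
        hcl _ _ (h3 _ _ ⟨w', rfl⟩ rfl)
      exact (h4.trans _ _ _ h5).trans _ _ _ h6
  obtain ⟨w, hw⟩ := hto x
  obtain ⟨w', hw'⟩ := hto y
  exact (hw.trans _ _ _ (hww w w')).trans _ _ _ hw'.symm

theorem psi_kind (d : c.D) (hd : ∀ p, d ≠ c.tie p) : ∀ p, c.a0 (c.s0 d) ≠ c.tie p := by
  intro p h
  rcases d with ⟨x, l⟩ | ⟨x, w⟩ | ⟨x, w⟩ | p'
  · by_cases h' : c.τ (c.ν l) = c.ν l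
    · simp [s0, a0, h'] at h
    · simp [s0, a0, h'] at h
  · simp [s0, a0] at h
  · simp [s0, a0] at h
  · exact hd p' rfl

theorem wt_le (d : c.D) (hd : ∀ p, d ≠ c.tie p) : c.wt d ≤ 2 := by
  rcases d with ⟨x, l⟩ | ⟨x, w⟩ | ⟨x, w⟩ | p'
  · simp [wt]
  · simp [wt]
  · simp [wt]
  · exact absurd rfl (hd p')

theorem sum_wt : ∑ d : c.D, c.wt d = 2 * (N * Fintype.card Lab + 2 * (N * Fintype.card c.W)) +
    3 * Fintype.card {p : c.W × c.W // p.1 ≠ p.2} := by
  rw [Fintype.sum_sum_type, Fintype.sum_sum_type, Fintype.sum_sum_type]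
  simp only [wt, Finset.sum_const, Finset.card_univ, Fintype.card_prod, ZMod.card, smul_eq_mul]
  ring

theorem card_D : Fintype.card c.D = N * Fintype.card Lab + 2 * (N * Fintype.card c.W) +
    Fintype.card {p : c.W × c.W // p.1 ≠ p.2} := by
  rw [Fintype.card_sum, Fintype.card_sum, Fintype.card_sum]
  simp only [Fintype.card_prod, ZMod.card]
  ring

theorem card_P : Fintype.card {p : c.W × c.W // p.1 ≠ p.2} + Fintype.card c.W =
    Fintype.card c.W * Fintype.card c.W := by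
  have h1 := Fintype.card_subtype_compl (fun p : c.W × c.W => p.1 = p.2)
  have h2 : Fintype.card {p : c.W × c.W // p.1 = p.2} = Fintype.card c.W := by
    refine Fintype.card_congr (Equiv.mk (fun p => p.1.1) (fun w => ⟨(w, w), rfl⟩) ?_ ?_)
    · rintro ⟨⟨a, b⟩, h⟩
      simp only at h
      subst h; rfl
    · intro w; rfl
  have h3 : Fintype.card {p : c.W × c.W // p.1 = p.2} ≤ Fintype.card (c.W × c.W) :=
    Fintype.card_subtype_le _
  rw [Fintype.card_prod] at h1 h3
  rw [h2] at h1 h3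
  have h4 : Fintype.card {p : c.W × c.W // p.1 ≠ p.2} =
    Fintype.card {p : c.W × c.W // ¬ p.1 = p.2} := rfl
  omega

theorem psi_low : 2 * (N * Fintype.card Lab + 2 * (N * Fintype.card c.W)) +
    3 * Fintype.card {p : c.W × c.W // p.1 ≠ p.2} ≤ 6 * cyc (c.al * c.sg) := by
  classical
  rw [← c.sum_wt]
  have happ : ∀ d, (c.al * c.sg) d = c.a0 (c.s0 d) := fun d => rfl
  refine cyc_weight (c.al * c.sg) c.wt
    (fun d => {d, c.a0 (c.s0 d), c.a0 (c.s0 (c.a0 (c.s0 d)))}) ?_ ?_ 6 ?_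
  · intro d
    rw [happ]
    by_cases hd : ∀ p, d ≠ c.tie p
    · rw [c.psi3 d hd]
      ext z
      simp only [Finset.mem_insert, Finset.mem_singleton]
      tauto
    · push Not at hd
      obtain ⟨p, rfl⟩ := hd
      have : c.a0 (c.s0 (c.a0 (c.s0 (c.tie p)))) = c.tie p := rfl
      rw [this]
      ext z
      simp only [Finset.mem_insert, Finset.mem_singleton]
      tauto
  · intro d; simp
  · intro d
    by_cases hd : ∀ p, d ≠ c.tie p
    · have h1 := c.psi_kind d hd
      have h2 := c.psi_kind _ h1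
      refine le_trans (Finset.sum_le_card_nsmul _ _ 2 ?_) ?_
      · intro z hz
        simp only [Finset.mem_insert, Finset.mem_singleton] at hz
        rcases hz with h | h | h
        · rw [h]; exact c.wt_le _ hd
        · rw [h]; exact c.wt_le _ h1
        · rw [h]; exact c.wt_le _ h2
      · have := Finset.card_le_three (a := d) (b := c.a0 (c.s0 d)) (c := c.a0 (c.s0 (c.a0 (c.s0 d))))
        rw [smul_eq_mul]; omega
    · push Not at hd
      obtain ⟨p, rfl⟩ := hd
      have : c.a0 (c.s0 (c.a0 (c.s0 (c.tie p)))) = c.tie p := rfl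
      rw [this]
      have h3 : ({c.tie p, c.a0 (c.s0 (c.tie p)), c.tie p} : Finset c.D) =
          {c.tie p, c.a0 (c.s0 (c.tie p))} := by
        ext z
        simp only [Finset.mem_insert, Finset.mem_singleton]
        tauto
      rw [h3]
      refine le_trans (Finset.sum_le_card_nsmul _ _ 3 ?_) ?_
      · intro z hz
        simp only [Finset.mem_insert, Finset.mem_singleton] at hz
        rcases hz with h | h
        · rw [h]; exact le_refl 3
        · rw [h]; exact le_refl 3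
      · have := Finset.card_le_two (a := c.tie p) (b := c.a0 (c.s0 (c.tie p)))
        rw [smul_eq_mul]; omega

/-- the main estimate -/
theorem good (hlab : Fintype.card Lab + 1 = N)
    (hc : ∀ l, ∃ v : c.W, Relation.EqvGen (fun a b => b = c.π a ∨ b = c.ν a) l v.1)
    (w0 : c.W) (G : ℕ) (hG : ∑ w : c.W, tc (c.val w.1) ≤ G) (w n m : ℕ)
    (hw : Fintype.card c.W = w) (hn : n = N + w) (hm : cyc c.π = m) :
    ∃ ε : ℤ, Good true ε n m ∧ Even ε ∧
      (n : ℤ) * (6 * m + 1 - n) - 6 * w * m - 6 * G - 5 * w ^ 2 + 17 * w ≤ 6 * ε := by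
  classical
  obtain ⟨σ', h1, h2, h3, h4⟩ := merge_all c.al c.ka c.T (cyc c.sg) c.sg le_rfl c.ka_sg
  have hpos : 1 ≤ cyc c.π := by
    unfold cyc
    have : Nonempty (Quot (fun x y => y = c.π x)) := ⟨cl c.π w0.1⟩
    exact Nat.card_pos
  have hcardC : Fintype.card c.C = n := by
    rw [Fintype.card_sum, ZMod.card, hw, hn]
  let e : c.C ≃ Fin n := Fintype.equivFinOfCardEq hcardC
  have hgood := good_of_rot σ' c.al ⟨c.inn 0 w0⟩ c.a0_a0 c.a0_ne (c.conn σ' h2 h3 hc w0) n m
    (fun d => e (c.ka d)) (fun d => by rw [h1]) (by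
      intro k
      have hp := c.parts σ' h2 h3 hpos (e.symm k)
      rw [hm] at hp
      refine le_trans (le_of_eq ?_) hp
      congr 1
      refine congrArg _ ?_
      funext q
      refine propext ⟨?_, ?_⟩
      · rintro ⟨x, hx, hq⟩; exact ⟨x, by rw [← hx]; simp, hq⟩
      · rintro ⟨x, hx, hq⟩; exact ⟨x, by rw [hx]; simp, hq⟩) (by
      intro a b hab
      have key : ∀ u v : c.C, u ≠ v → ∃ x, c.ka x = u ∧ c.ka (c.al x) = v := by
        rintro (x | w) (y | w') huv
        · obtain ⟨l, hl⟩ := c.hsurj (y - x) (by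
            intro h; apply huv; rw [sub_eq_zero] at h; rw [h])
          refine ⟨c.base x l, rfl, ?_⟩
          show (Sum.inl (x + c.val l) : c.C) = _
          rw [hl]; simp
        · exact ⟨c.out x w', rfl, rfl⟩
        · exact ⟨c.inn y w, rfl, rfl⟩
        · exact ⟨c.tie ⟨(w, w'), fun h => huv (by simp only at h; rw [h])⟩, rfl, rfl⟩
      obtain ⟨x, hx, hx'⟩ := key (e.symm a) (e.symm b) (fun h => hab (e.symm.injective h))
      exact ⟨x, by rw [hx]; simp, by rw [hx']; simp⟩)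
  refine ⟨_, hgood, ?_, ?_⟩
  · have := even_euler σ' c.al c.a0_a0 c.a0_ne
    obtain ⟨r, hr⟩ := this
    refine ⟨(r : ℤ) - cyc c.al, ?_⟩
    have : (cyc (c.al * σ') : ℤ) + cyc c.al + cyc σ' = r + r := by exact_mod_cast hr
    linarith
  · have k1 := c.low σ' h1 h2
    have k2 := c.up
    have k3 := c.psi_low
    have k4 := cyc_invol c.al c.a0_a0 c.a0_ne
    have k5 := c.card_D
    have k6 := c.card_P
    rw [k5] at k4
    rw [hw] at *
    rw [hm] at *
    set A := cyc (c.al * σ')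
    set B := cyc (c.al * c.sg)
    set S' := cyc σ'
    set S := cyc c.sg
    set a := cyc c.al
    set P := Fintype.card {p : c.W × c.W // p.1 ≠ p.2}
    set Gs := ∑ w : c.W, tc (c.val w.1)
    have hN : (Fintype.card Lab : ℤ) = N - 1 := by
      have : (Fintype.card Lab : ℤ) + 1 = N := by exact_mod_cast hlab
      linarith
    set Lc := Fintype.card Lab
    zify at h4 k1 k2 k3 k4 k6 hG
    rw [hN] at k3 k4
    have hn' : (n : ℤ) = N + w := by exact_mod_cast hn
    rw [hn']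
    nlinarith [h4, k1, k2, k3, k4, k6, hG]

end Cur

end Run7.h951
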